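import Pool.Agent.Helper667_AS.Seq

/-!
# Counting the representations, and the numbers which are covered
-/

set_option autoImplicit false

namespace Pool.Agent.Helper667_AS

open Finset Pool.Agent.H125R2.ET

/-- separated blocks: only one of them matters for a given number -/
theorem sep_count (W : ℕ → Finset ℕ) (l h : ℕ → ℕ) (hl : ∀ i, ∀ v ∈ W i, l i ≤ v)
    (hh : ∀ i, ∀ v ∈ W i, v < h i) (hsep : ∀ i j, i < j → 2 * h i ≤ l j) (n : ℕ) :
    rA (bigA W) n = 0 ∨ ∃ i, l i ≤ n ∧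
      rA (bigA W) n ≤ repF (W i) (W i) n + 2 * (W i ∩ refl n ((range i).biUnion W)).card := by
  classical
  -- the larger index of a representation
  have key : ∀ {i j a b : ℕ}, j ≤ i → a ∈ W i → b ∈ W j → a + b = n → l i ≤ n ∧ n < 2 * h i := by
    intro i j a b hij ha hb hab
    have h1 := hl i a ha
    have h2 := hh i a ha
    have h3 := hh j b hb
    rcases hij.eq_or_lt with rfl | hlt
    · omega
    · have := hsep j i hlt
      omega
  have huniq : ∀ {i j : ℕ}, l i ≤ n → n < 2 * h i → l j ≤ n → n < 2 * h j → i = j := by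
    intro i j h1 h2 h3 h4
    rcases lt_trichotomy i j with hlt | heq | hgt
    · have := hsep i j hlt
      omega
    · exact heq
    · have := hsep j i hgt
      omega
  by_cases hex : ∃ i, l i ≤ n ∧ n < 2 * h i
  · obtain ⟨i, hi1, hi2⟩ := hex
    refine Or.inr ⟨i, hi1, ?_⟩
    set T1 : Finset (ℕ × ℕ) := (W i ×ˢ W i).filter (fun x => x.1 + x.2 = n) with hT1
    set L : Finset ℕ := W i ∩ refl n ((range i).biUnion W) with hL
    set T2 : Finset (ℕ × ℕ) := L.image (fun b => (n - b, b)) with hT2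
    set T3 : Finset (ℕ × ℕ) := L.image (fun a => (a, n - a)) with hT3
    have hlow : ∀ {j c d : ℕ}, j < i → c ∈ W j → d ∈ W i → c + d = n → d ∈ L := by
      intro j c d hij hc hd hcd
      rw [hL, mem_inter, mem_refl]
      refine ⟨hd, by omega, ?_⟩
      rw [mem_biUnion]
      refine ⟨j, mem_range.mpr hij, ?_⟩
      have : n - d = c := by omega
      rw [this]
      exact hc
    have hsub : {x : ℕ × ℕ | x.1 ∈ bigA W ∧ x.2 ∈ bigA W ∧ x.1 + x.2 = n} ⊆
        ((T1 ∪ (T2 ∪ T3) : Finset (ℕ × ℕ)) : Set (ℕ × ℕ)) := by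
      rintro ⟨a, b⟩ ⟨⟨ia, ha⟩, ⟨ib, hb⟩, hab⟩
      simp only at ha hb hab
      rw [mem_coe]
      rcases lt_trichotomy ia ib with hlt | heq | hgt
      · obtain ⟨k1, k2⟩ := key hlt.le hb ha (by omega)
        obtain rfl := huniq k1 k2 hi1 hi2
        refine mem_union_right _ (mem_union_left _ ?_)
        rw [hT2, mem_image]
        refine ⟨b, hlow hlt ha hb hab, ?_⟩
        rw [Prod.mk.injEq]
        exact ⟨by omega, rfl⟩
      · subst heq
        obtain ⟨k1, k2⟩ := key le_rfl ha hb hab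
        obtain rfl := huniq k1 k2 hi1 hi2
        refine mem_union_left _ ?_
        rw [hT1, mem_filter, mem_product]
        exact ⟨⟨ha, hb⟩, hab⟩
      · obtain ⟨k1, k2⟩ := key hgt.le ha hb hab
        obtain rfl := huniq k1 k2 hi1 hi2
        refine mem_union_right _ (mem_union_right _ ?_)
        rw [hT3, mem_image]
        refine ⟨a, hlow hgt hb ha (by omega), ?_⟩
        rw [Prod.mk.injEq]
        exact ⟨rfl, by omega⟩
    calc rA (bigA W) n ≤ ((T1 ∪ (T2 ∪ T3) : Finset (ℕ × ℕ)) : Set (ℕ × ℕ)).ncard :=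
          Set.ncard_le_ncard hsub (Finset.finite_toSet _)
      _ = (T1 ∪ (T2 ∪ T3)).card := Set.ncard_coe_finset _
      _ ≤ repF (W i) (W i) n + 2 * L.card := by
          have h1 := card_union_le T1 (T2 ∪ T3)
          have h2 := card_union_le T2 T3
          have h3 : T2.card ≤ L.card := card_image_le
          have h4 : T3.card ≤ L.card := card_image_le
          have h5 : T1.card = repF (W i) (W i) n := rfl
          omega
  · left
    have he : {x : ℕ × ℕ | x.1 ∈ bigA W ∧ x.2 ∈ bigA W ∧ x.1 + x.2 = n} = ∅ := by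
      rw [Set.eq_empty_iff_forall_notMem]
      rintro ⟨a, b⟩ ⟨⟨ia, ha⟩, ⟨ib, hb⟩, hab⟩
      simp only at ha hb hab
      rcases le_total ia ib with hle | hle
      · exact hex ⟨ib, key hle hb ha (by omega)⟩
      · exact hex ⟨ia, key hle ha hb hab⟩
    unfold rA
    rw [he, Set.ncard_empty]

/-- the blocks of a good point -/
def WSys.blk {C : ℕ} (s : WSys C) (ω : ∀ i, (s.X i).Ω) (i : ℕ) : Finset ℕ :=
  wd ((s.p i) ^ 8) (s.B i) ((s.X i).S (ω i))

/-- **Wide blocks.** -/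
theorem wide_set (C : ℕ) (hM : BlockMom C) (h0 : BlockRange C) (h1 : RegProb C) :
    ∃ C4 K0 : ℕ, ∀ (s : WSys C), (∀ i, K0 ≤ s.κ i) → ∀ ρ : ℕ → ℕ,
      (∀ i n, repF (s.B i) (s.B i) n ≤ ρ i) → ∃ A : Set ℕ,
      (∀ n, rA A n = 0 ∨ ∃ i, 2 ^ (8 * s.κ i) ≤ n ∧
        (rA A n : ℝ) ≤ C4 * (ρ i + s.κ i / s.γ i)) ∧
      (∀ i n, 11 * (s.p i) ^ 8 ≤ n → (∃ b ∈ s.B i, ∃ b' ∈ s.B i, b + b' = n / (s.p i) ^ 8 - 11) →
        ∃ a ∈ A, ∃ b ∈ A, a + b = n) := by
  obtain ⟨C3, K0, hgood⟩ := good_wide C hM h0 h1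
  refine ⟨(2 * (C + 4) + 1) * (C * (2 * C * C) ^ 3) + 2 * ((C + 6) * C3), K0, ?_⟩
  intro s hK ρ hρ
  obtain ⟨ω, hω⟩ := hgood s hK
  have hrng : ∀ i, ∀ x ∈ (s.X i).S (ω i), (s.p i) ^ 8 ≤ x ∧ x < (C + 4) * (s.p i) ^ 8 := by
    intro i x hx
    exact (h0 (s.p i) (s.prime i).pos (by have := s.Cp i; omega)
      (by have := s.Cp i; omega) (s.D i) (s.base i) (ω i)).1 x hx
  have hm : ∀ i, 0 < (s.p i) ^ 8 := fun i => pow_pos (s.prime i).pos 8
  have hlo8 : ∀ i, 2 ^ (8 * s.κ i) ≤ (s.p i) ^ 8 := by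
    intro i
    calc 2 ^ (8 * s.κ i) = (2 ^ s.κ i) ^ 8 := by rw [← pow_mul, mul_comm]
      _ ≤ (s.p i) ^ 8 := Nat.pow_le_pow_left (s.lo i).le 8
  refine ⟨bigA (s.blk ω), ?_, ?_⟩
  · intro n
    have hsep := sep_count (s.blk ω) (fun i => (s.p i) ^ 8)
      (fun i => (C + 4 + 2 ^ s.u i) * (s.p i) ^ 8) (fun i v hv => (s.range h0 i (ω i) v hv).1)
      (fun i v hv => (s.range h0 i (ω i) v hv).2) (by
        intro i j hij
        have e1 := s.gap j i hij
        have e2 := s.γC j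
        have e3 : C + 4 + 2 ^ s.u i ≤ 2 ^ (C + 5 + s.u i) := by
          have e1 : C + 4 < 2 ^ (C + 4) := Nat.lt_two_pow_self
          have e2 : 2 ^ (C + 5 + s.u i) = 2 ^ (C + 4) * 2 ^ s.u i + 2 ^ (C + 4) * 2 ^ s.u i := by
            ring
          have e3 : 1 ≤ 2 ^ s.u i := Nat.one_le_two_pow
          have e4 : 2 ^ (C + 4) * 1 ≤ 2 ^ (C + 4) * 2 ^ s.u i := Nat.mul_le_mul_left _ e3
          have e5 : 1 * 2 ^ s.u i ≤ 2 ^ (C + 4) * 2 ^ s.u i :=
            Nat.mul_le_mul_right _ Nat.one_le_two_pow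
          omega
        have e4 : (s.p i) ^ 8 ≤ 2 ^ (8 * s.κ i + 8) := by
          calc (s.p i) ^ 8 ≤ (2 ^ (s.κ i + 1)) ^ 8 := Nat.pow_le_pow_left (s.hi i) 8
            _ = 2 ^ (8 * s.κ i + 8) := by rw [← pow_mul]; ring_nf
        calc 2 * ((C + 4 + 2 ^ s.u i) * (s.p i) ^ 8)
            ≤ 2 * (2 ^ (C + 5 + s.u i) * 2 ^ (8 * s.κ i + 8)) :=
              Nat.mul_le_mul_left _ (Nat.mul_le_mul e3 e4)
          _ = 2 ^ (C + 14 + s.u i + 8 * s.κ i) := by rw [← pow_add, ← pow_succ']; congr 1; ring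
          _ ≤ 2 ^ (8 * s.κ j) := Nat.pow_le_pow_right (by norm_num) (by omega)
          _ ≤ (s.p j) ^ 8 := hlo8 j) n
    rcases hsep with h | ⟨i, h2, h3⟩
    · exact Or.inl h
    · refine Or.inr ⟨i, (hlo8 i).trans h2, ?_⟩
      have hrep : repF (s.blk ω i) (s.blk ω i) n ≤
          (2 * (C + 4) + 1) * (ρ i * (C * (2 * C * C) ^ 3)) :=
        wd_rep (hm i) (fun x hx => (hrng i x hx).2)
          (fun n => block_rep C (s.p i) (s.prime i).pos (s.D i) (s.base i) (ω i) (ω i) n) (hρ i) n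
      have hY : ∀ y ∈ (range i).biUnion (s.blk ω), y < (s.p i) ^ 8 := by
        intro y hy
        rw [mem_biUnion] at hy
        obtain ⟨j, hj, hy⟩ := hy
        have e1 := (s.range h0 j (ω j) y hy).2
        have e2 := s.below (mem_range.1 hj)
        have e3 := hlo8 i
        omega
      have hcross := wd_refl (J := C + 4) (hm i) (B := s.B i) (hrng i) hY (hω i) n
      have h4 : (rA (bigA (s.blk ω)) n : ℝ) ≤ (repF (s.blk ω i) (s.blk ω i) n : ℝ) +
          2 * ((s.blk ω i ∩ refl n ((range i).biUnion (s.blk ω))).card : ℝ) := by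
        exact_mod_cast h3
      have h5 : (repF (s.blk ω i) (s.blk ω i) n : ℝ) ≤
          (((2 * (C + 4) + 1) * (C * (2 * C * C) ^ 3) : ℕ) : ℝ) * ρ i := by
        have : (2 * (C + 4) + 1) * (ρ i * (C * (2 * C * C) ^ 3)) =
            (2 * (C + 4) + 1) * (C * (2 * C * C) ^ 3) * ρ i := by ring
        rw [this] at hrep
        exact_mod_cast hrep
      have h6 : ((s.blk ω i ∩ refl n ((range i).biUnion (s.blk ω))).card : ℝ) ≤
          (((C + 6) * C3 : ℕ) : ℝ) * (s.κ i / s.γ i) := by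
        refine hcross.trans (le_of_eq ?_)
        push_cast
        ring
      have h7 : (0 : ℝ) ≤ ρ i := Nat.cast_nonneg _
      have h8 : (0 : ℝ) ≤ (s.κ i : ℝ) / s.γ i := by positivity
      have h9 : (0 : ℝ) ≤ (((2 * (C + 4) + 1) * (C * (2 * C * C) ^ 3) : ℕ) : ℝ) :=
        Nat.cast_nonneg _
      have h10 : (0 : ℝ) ≤ (((C + 6) * C3 : ℕ) : ℝ) := Nat.cast_nonneg _
      rw [Nat.cast_add, Nat.cast_mul 2]
      nlinarith [mul_nonneg h9 h8, mul_nonneg h10 h7]
  · rintro i n h2 ⟨b, hb, b', hb', hbb⟩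
    obtain ⟨m, hmdef⟩ : ∃ m, m = (s.p i) ^ 8 := ⟨_, rfl⟩
    have hm0 : 0 < m := by rw [hmdef]; exact hm i
    rw [← hmdef] at h2 hbb
    have e1 := Nat.div_add_mod n m
    have e2 := Nat.mod_lt n hm0
    have e3 : 11 ≤ n / m := (Nat.le_div_iff_mul_le hm0).2 h2
    obtain ⟨x, hx, y, hy, hxy⟩ := block_cov C (s.p i) (s.prime i).pos (by have := s.Cp i; omega)
      (s.D i) (s.base i) (ω i) (ω i) (11 * m + n % m) (by rw [hmdef]; exact Nat.le_add_right _ _) (by
        rw [← hmdef]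
        omega)
    refine ⟨x + m * b, ⟨i, ?_⟩, y + m * b', ⟨i, ?_⟩, ?_⟩
    · rw [hmdef]
      exact mem_wd.2 ⟨b, hb, x, hx, rfl⟩
    · rw [hmdef]
      exact mem_wd.2 ⟨b', hb', y, hy, rfl⟩
    · have e4 : m * (n / m) = m * (b + b') + m * 11 := by
        rw [hbb, ← mul_add]
        congr 1
        omega
      have e5 : m * (b + b') = m * b + m * b' := mul_add _ _ _
      omega

end Pool.Agent.Helper667_AS
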