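import Pool.Agent.Helper667_AS.Succ

/-!
# One set for all exponents
-/

set_option autoImplicit false

namespace Pool.Agent.Helper667_AS

open Finset Pool.Agent.H125R2.ET

/-- the scales -/
def kap (k0 : ℕ) : ℕ → ℕ
  | 0 => k0
  | (i + 1) => kap k0 i + kap k0 i / Nat.log 2 (kap k0 i)

/-- the gaps -/
def gm (k : ℕ) : ℕ := k / (2 * (Nat.log 2 k) ^ 2)

theorem kap_succ (k0 i : ℕ) : kap k0 (i + 1) = kap k0 i + kap k0 i / Nat.log 2 (kap k0 i) := rfl

theorem kap_mono (k0 : ℕ) : Monotone (kap k0) :=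
  monotone_nat_of_le_succ (fun i => by rw [kap_succ]; exact Nat.le_add_right _ _)

theorem kap_ge (k0 i : ℕ) : k0 ≤ kap k0 i := kap_mono k0 (Nat.zero_le i)

section facts

variable {k l : ℕ}

/-- the basic facts on a large number `k` with logarithm `l` -/
theorem facts_of (hl : l = Nat.log 2 k) (h4 : 16 ≤ l) (h5 : l ^ 5 ≤ 2 ^ l) :
    l ^ 5 ≤ k ∧ k < 2 ^ (l + 1) ∧ l ^ 4 ≤ k / l ∧ l ^ 2 ≤ gm k ∧ k ≤ 4 * l ^ 2 * gm k ∧
      gm (k + k / l) ≤ k / l / l ∧ gm (k + k / l) ≤ k / l := by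
  have hk0 : k ≠ 0 := by
    rintro rfl
    rw [Nat.log_zero_right] at hl
    omega
  have e1 : 2 ^ l ≤ k := by rw [hl]; exact Nat.pow_log_le_self 2 hk0
  have e2 : k < 2 ^ (l + 1) := by rw [hl]; exact Nat.lt_pow_succ_log_self (by norm_num) k
  have e3 : l ^ 5 ≤ k := h5.trans e1
  have hl0 : 0 < l := by omega
  have e4 : l ^ 4 ≤ k / l := by
    rw [Nat.le_div_iff_mul_le hl0]
    calc l ^ 4 * l = l ^ 5 := by ring
      _ ≤ k := e3
  have hgm : gm k = k / (2 * l ^ 2) := by unfold gm; rw [← hl]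
  have hl2 : 0 < 2 * l ^ 2 := by positivity
  have e5 : l ^ 2 ≤ gm k := by
    rw [hgm, Nat.le_div_iff_mul_le hl2]
    calc l ^ 2 * (2 * l ^ 2) = 2 * l ^ 4 := by ring
      _ ≤ l * l ^ 4 := Nat.mul_le_mul_right _ (by omega)
      _ = l ^ 5 := by ring
      _ ≤ k := e3
  have e6 : k ≤ 4 * l ^ 2 * gm k := by
    have f1 : 1 ≤ gm k := le_trans (Nat.one_le_pow _ _ hl0) e5
    have f2 : k < 2 * l ^ 2 * (gm k + 1) := by
      rw [hgm, Nat.mul_add, Nat.mul_one]
      have := Nat.div_add_mod k (2 * l ^ 2)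
      have := Nat.mod_lt k hl2
      omega
    have f3 : 2 * l ^ 2 * (gm k + 1) ≤ 2 * l ^ 2 * (2 * gm k) := Nat.mul_le_mul_left _ (by omega)
    have f4 : 2 * l ^ 2 * (2 * gm k) = 4 * l ^ 2 * gm k := by ring
    omega
  have e7 : gm (k + k / l) ≤ k / l / l := by
    have f1 : k / l ≤ k := Nat.div_le_self _ _
    have f2 : l ≤ Nat.log 2 (k + k / l) := by
      rw [hl]
      exact Nat.log_mono_right (Nat.le_add_right _ _)
    unfold gm
    rw [Nat.div_div_eq_div_mul]
    calc (k + k / l) / (2 * Nat.log 2 (k + k / l) ^ 2) ≤ (2 * k) / (2 * l ^ 2) := by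
          refine Nat.div_le_div (by omega) ?_ (by positivity)
          exact Nat.mul_le_mul_left _ (Nat.pow_le_pow_left f2 2)
      _ = k / (l * l) := by rw [Nat.mul_div_mul_left _ _ (by norm_num), sq]
  exact ⟨e3, e2, e4, e5, e6, e7, e7.trans (Nat.div_le_self _ _)⟩

end facts

/-- **One set.** -/
theorem diag : ∃ A : Set ℕ,
    (∀ b : ℕ, 1 ≤ b → ∃ c : ℕ, ∀ n, (rA A n) ^ b ≤ c * (Nat.log 2 n + 1)) ∧
    (∀ N : ℕ, ∃ K1 : ℕ, ∀ K ≥ K1, N * bc A K ≤ K) := by
  have hall : ∀ a : ℕ, ∃ (B : Set ℕ) (c : ℕ), Good 1 (a + 1) B c := fun a =>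
    good_exists 1 (a + 1) (by omega)
  choose Bs cs hBs using hall
  obtain ⟨C, hC⟩ := base_exists
  have hM : BlockMom C := block_mom C
  have hR : BlockRange C := block_range C
  obtain ⟨C4, K0, hmain⟩ := wide_set C hM hR (reg_prob C hM hR)
  obtain ⟨N5, hN5⟩ := pow_le_two_pow 5
  obtain ⟨L0, hL0⟩ : ∃ L0, L0 = N5 + C + K0 + 4 * cs 0 + 300 := ⟨_, rfl⟩
  set κ : ℕ → ℕ := kap (2 ^ L0) with hκ
  have hκs : ∀ i, κ (i + 1) = κ i + κ i / Nat.log 2 (κ i) := fun i => rfl
  have hκm : Monotone κ := kap_mono _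
  have hlg : ∀ i, L0 ≤ Nat.log 2 (κ i) := by
    intro i
    calc L0 = Nat.log 2 (2 ^ L0) := (Nat.log_pow (by norm_num) _).symm
      _ ≤ Nat.log 2 (κ i) := Nat.log_mono_right (kap_ge _ i)
  have F := fun i => facts_of (k := κ i) rfl (by have := hlg i; omega)
    (hN5 _ (by have := hlg i; omega))
  have hκ1 : ∀ i, κ i + 1 ≤ κ (i + 1) := by
    intro i
    have h1 := (F i).2.2.1
    have h2 : 1 ≤ (Nat.log 2 (κ i)) ^ 4 := Nat.one_le_pow _ _ (by have := hlg i; omega)
    rw [hκs]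
    omega
  have hiκ : ∀ i, i + Nat.log 2 (κ 0) ≤ κ i := by
    intro i
    induction i with
    | zero =>
      rw [Nat.zero_add]
      exact Nat.log_le_self _ _
    | succ i ih =>
      have := hκ1 i
      omega
  -- levels
  set Ad : ℕ → ℕ → Prop := fun i a => cs a * (a + 2) ^ (a + 2) ≤ Nat.log 2 (κ i) with hAd
  classical
  set lv : ℕ → ℕ := fun i => Nat.findGreatest (Ad i) i with hlv
  have hlvP : ∀ i, cs (lv i) * (lv i + 2) ^ (lv i + 2) ≤ Nat.log 2 (κ i) := by
    intro i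
    have h0 : Ad i 0 := by
      show cs 0 * (0 + 2) ^ (0 + 2) ≤ Nat.log 2 (κ i)
      have := hlg i
      norm_num
      omega
    exact Nat.findGreatest_spec (P := Ad i) (Nat.zero_le i) h0
  have hlvT : ∀ b, ∃ i0, ∀ i ≥ i0, b ≤ lv i := by
    intro b
    refine ⟨b + 2 ^ (cs b * (b + 2) ^ (b + 2)), fun i hi => ?_⟩
    refine Nat.le_findGreatest (le_trans (Nat.le_add_right _ _) hi) ?_
    show cs b * (b + 2) ^ (b + 2) ≤ Nat.log 2 (κ i)
    have h1 : 2 ^ (cs b * (b + 2) ^ (b + 2)) ≤ κ i := by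
      have := hiκ i
      omega
    calc cs b * (b + 2) ^ (b + 2) = Nat.log 2 (2 ^ (cs b * (b + 2) ^ (b + 2))) :=
          (Nat.log_pow (by norm_num) _).symm
      _ ≤ Nat.log 2 (κ i) := Nat.log_mono_right h1
  have hlvc : ∀ i, cs (lv i) ≤ Nat.log 2 (κ i) := by
    intro i
    refine le_trans ?_ (hlvP i)
    exact Nat.le_mul_of_pos_right _ (by positivity)
  -- widths
  set u : ℕ → ℕ := fun i => 8 * (κ (i + 1) - κ i - gm (κ (i + 1))) with hu
  have hu8 : ∀ i, 8 * κ i + u i + 8 * gm (κ (i + 1)) = 8 * κ (i + 1) := by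
    intro i
    have h1 := (F i).2.2.2.2.2.2
    rw [← hκs] at h1
    have h2 := hκs i
    simp only [hu]
    omega
  have hule : ∀ i, u i ≤ 8 * (κ i / Nat.log 2 (κ i)) := by
    intro i
    have h1 := hu8 i
    have h2 := hκs i
    omega
  have hu32 : ∀ i, 32 * u i ≤ κ i := by
    intro i
    have h1 := hule i
    have h2 : 256 * (κ i / Nat.log 2 (κ i)) ≤ Nat.log 2 (κ i) * (κ i / Nat.log 2 (κ i)) :=
      Nat.mul_le_mul_right _ (by have := hlg i; omega)
    have h3 := Nat.mul_div_le (κ i) (Nat.log 2 (κ i))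
    omega
  have hγ3 : ∀ i, 3 * (Nat.log 2 (κ i) + 1) ≤ gm (κ i) ∧ Nat.log 2 (κ i) ≤ gm (κ i) := by
    intro i
    have h1 := (F i).2.2.2.1
    have h2 := hlg i
    have h3 : 300 * Nat.log 2 (κ i) ≤ (Nat.log 2 (κ i)) ^ 2 := by
      rw [sq]
      exact Nat.mul_le_mul_right _ (by omega)
    constructor <;> omega
  have hκ2 : ∀ i, κ i < 2 ^ (Nat.log 2 (κ i) + 1) := fun i => (F i).2.1
  have hprime : ∀ i : ℕ, ∃ p : ℕ, p.Prime ∧ 2 ^ κ i < p ∧ p ≤ 2 ^ (κ i + 1) := by
    intro i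
    obtain ⟨p, hp, h1, h2⟩ := Nat.exists_prime_lt_and_le_two_mul (2 ^ κ i)
      (pow_ne_zero _ two_ne_zero)
    exact ⟨p, hp, h1, by rw [pow_succ]; omega⟩
  choose p hp hlo hhi using hprime
  have hκbig : ∀ i, L0 ≤ κ i := by
    intro i
    have := hlg i
    have := Nat.log_le_self 2 (κ i)
    omega
  have h7 : ∀ i, 7 < p i := by
    intro i
    have h3 : 2 ^ 3 ≤ 2 ^ κ i := Nat.pow_le_pow_right (by norm_num) (by have := hκbig i; omega)
    have := hlo i
    omega
  have h2 : ∀ i, ∃ D : Finset ℕ, IsBase C (p i) D := fun i => hC (p i) (hp i) (h7 i)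
  choose D hD using h2
  obtain ⟨s, hsB, hsκ, hsu, hsγ⟩ : ∃ s : WSys C, (∀ i, s.B i = cut (Bs (lv i)) (u i)) ∧
      (∀ i, s.κ i = κ i) ∧ (∀ i, s.u i = u i) ∧ (∀ i, s.γ i = gm (κ i)) := by
    refine ⟨⟨p, D, fun i => cut (Bs (lv i)) (u i), κ, u, fun i => gm (κ i), hp, hlo, hhi, hD,
      ?_, ?_, ?_, ?_, ?_, ?_, ?_, ?_⟩, fun i => rfl, fun i => rfl, fun i => rfl, fun i => rfl⟩
    · intro i b hb
      exact (mem_cut.1 hb).1
    · intro i j hj
      have e1 := hu8 j
      have e2 : κ (j + 1) - gm (κ (j + 1)) ≤ κ i - gm (κ i) := by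
        rcases (Nat.succ_le_of_lt hj).eq_or_lt with h | h
        · rw [show j + 1 = i from h]
        · obtain ⟨i', rfl⟩ : ∃ i', i = i' + 1 := ⟨i - 1, by omega⟩
          have f1 := (F i').2.2.2.2.2.2
          rw [← hκs] at f1
          have f2 := hκs i'
          have f3 : κ (j + 1) ≤ κ i' := hκm (by omega)
          omega
      have e3 : gm (κ i) ≤ κ i := Nat.div_le_self _ _
      have e4 : gm (κ (j + 1)) ≤ κ (j + 1) := Nat.div_le_self _ _
      omega
    · intro i j hj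
      refine (cut_card (Nat.succ_le_succ (Nat.zero_le _)) (hBs (lv j)) (u j)).trans ?_
      show 2 ^ (u j + 1) * (cs (lv j) * (u j + 2) ^ 2) ≤ _
      have e1 : κ j ≤ κ i := hκm hj.le
      have e2 : cs (lv j) ≤ κ i := (hlvc j).trans ((Nat.log_le_self _ _).trans e1)
      have e3 : u j + 2 ≤ κ i := by
        have := hu32 j
        have := hκbig j
        omega
      have e4 : κ i ≤ 2 ^ (Nat.log 2 (κ i) + 1) := (hκ2 i).le
      calc 2 ^ (u j + 1) * (cs (lv j) * (u j + 2) ^ 2)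
          ≤ 2 ^ (u j + 1) * (2 ^ (Nat.log 2 (κ i) + 1) * (2 ^ (Nat.log 2 (κ i) + 1)) ^ 2) :=
            Nat.mul_le_mul_left _ (Nat.mul_le_mul (e2.trans e4)
              (Nat.pow_le_pow_left (e3.trans e4) 2))
        _ = 2 ^ (u j + 1 + 3 * (Nat.log 2 (κ i) + 1)) := by
            rw [← pow_mul, ← pow_add, ← pow_add]
            congr 1
            ring
        _ ≤ 2 ^ (u j + 2 * gm (κ i)) := by
            refine Nat.pow_le_pow_right (by norm_num) ?_
            have := (hγ3 i).1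
            omega
    · exact hu32
    · intro i
      have e1 := (F i).2.2.2.1
      have e2 : gm (κ i) * (2 * (Nat.log 2 (κ i)) ^ 2) ≤ κ i := Nat.div_mul_le_self _ _
      have e3 : 32 ≤ 2 * (Nat.log 2 (κ i)) ^ 2 := by
        have := hlg i
        nlinarith
      show 32 * gm (κ i) ≤ κ i
      calc 32 * gm (κ i) = gm (κ i) * 32 := mul_comm _ _
        _ ≤ gm (κ i) * (2 * (Nat.log 2 (κ i)) ^ 2) := Nat.mul_le_mul_left _ e3
        _ ≤ κ i := e2
    · intro i
      have := hiκ i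
      omega
    · intro i
      show i * (κ i + C + 5) ≤ 2 ^ gm (κ i)
      have e1 : i ≤ κ i := by have := hiκ i; omega
      have e2 : κ i + C + 5 ≤ 2 * κ i := by have := hκbig i; omega
      have e4 : κ i ≤ 2 ^ (Nat.log 2 (κ i) + 1) := (hκ2 i).le
      calc i * (κ i + C + 5) ≤ κ i * (2 * κ i) := Nat.mul_le_mul e1 e2
        _ ≤ 2 ^ (Nat.log 2 (κ i) + 1) * (2 * 2 ^ (Nat.log 2 (κ i) + 1)) :=
            Nat.mul_le_mul e4 (Nat.mul_le_mul_left _ e4)
        _ = 2 ^ (2 * (Nat.log 2 (κ i) + 1) + 1) := by ring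
        _ ≤ 2 ^ gm (κ i) := by
            refine Nat.pow_le_pow_right (by norm_num) ?_
            have := (hγ3 i).1
            omega
    · intro i
      have := (hγ3 i).2
      have := hlg i
      show C + 8 ≤ gm (κ i)
      omega
  -- the bound for the representations by `B i`
  have hρ : ∀ i, ∃ ρ : ℕ, (∀ n, repF (s.B i) (s.B i) n ≤ ρ) ∧
      ρ ^ (lv i + 2) ≤ cs (lv i) * (u i + 2) ^ 2 := by
    intro i
    obtain ⟨X, hX⟩ : ∃ X, X = cs (lv i) * (u i + 2) ^ 2 := ⟨_, rfl⟩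
    refine ⟨Nat.findGreatest (fun r => r ^ (lv i + 2) ≤ X) X, ?_, ?_⟩
    · intro n
      rw [hsB i]
      have e1 : (repF (cut (Bs (lv i)) (u i)) (cut (Bs (lv i)) (u i)) n) ^ (lv i + 2) ≤ X := by
        rw [hX]
        exact cut_rep (Nat.succ_le_succ (Nat.zero_le _)) (hBs (lv i)) (u i) n
      refine Nat.le_findGreatest ?_ e1
      exact (Nat.le_self_pow (by omega) _).trans e1
    · rw [← hX]
      refine Nat.findGreatest_spec (P := fun r => r ^ (lv i + 2) ≤ X) (Nat.zero_le X) ?_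
      rw [zero_pow (by omega)]
      exact Nat.zero_le _
  choose ρ hρ1 hρ2 using hρ
  obtain ⟨A, hA1, hA2⟩ := hmain s (fun i => by
      rw [hsκ i]
      have := hκbig i
      omega) ρ hρ1
  refine ⟨A, ?_, ?_⟩
  · -- representations
    intro b hb
    -- a bound for each window
    have hwin : ∀ n, rA A n = 0 ∨ ∃ i, 2 ^ (8 * κ i) ≤ n ∧
        rA A n ≤ C4 * (ρ i + 4 * (Nat.log 2 (κ i)) ^ 2) := by
      intro n
      rcases hA1 n with h0 | ⟨i, hi1, hi2⟩
      · exact Or.inl h0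
      · refine Or.inr ⟨i, by rw [← hsκ i]; exact hi1, ?_⟩
        rw [hsκ i, hsγ i] at hi2
        have e1 : (κ i : ℝ) / (gm (κ i) : ℝ) ≤ ((4 * (Nat.log 2 (κ i)) ^ 2 : ℕ) : ℝ) := by
          have f0 : 0 < gm (κ i) := by
            have := (hγ3 i).1
            omega
          rw [div_le_iff₀ (by exact_mod_cast f0)]
          exact_mod_cast (F i).2.2.2.2.1
        have e2 : (rA A n : ℝ) ≤ C4 * (ρ i + ((4 * (Nat.log 2 (κ i)) ^ 2 : ℕ) : ℝ)) := by
          refine hi2.trans (mul_le_mul_of_nonneg_left ?_ (Nat.cast_nonneg _))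
          linarith
        exact_mod_cast e2
    obtain ⟨i1, hi1⟩ := hlvT (3 * b)
    obtain ⟨N1, hN1⟩ := pow_le_two_pow (3 * b)
    obtain ⟨i0, hi0⟩ : ∃ i0, i0 = i1 + 2 ^ N1 := ⟨_, rfl⟩
    obtain ⟨M, hM'⟩ : ∃ M, M = ∑ i ∈ range i0, C4 * (ρ i + 4 * (Nat.log 2 (κ i)) ^ 2) := ⟨_, rfl⟩
    refine ⟨C4 ^ b * (2 ^ b * 2) + M ^ b, fun n => ?_⟩
    rcases hwin n with h0 | ⟨i, hi, hr⟩
    · rw [h0, zero_pow (by omega)]
      exact Nat.zero_le _
    · have hlogn : κ i ≤ Nat.log 2 n := by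
        have hn0 : n ≠ 0 := by
          have : 0 < 2 ^ (8 * κ i) := by positivity
          omega
        have := (Nat.le_log_iff_pow_le (by norm_num) hn0).2 hi
        omega
      by_cases hii : i < i0
      · have e1 : C4 * (ρ i + 4 * (Nat.log 2 (κ i)) ^ 2) ≤ M := by
          rw [hM']
          exact Finset.single_le_sum (f := fun i => C4 * (ρ i + 4 * (Nat.log 2 (κ i)) ^ 2))
            (fun j _ => Nat.zero_le _) (mem_range.2 hii)
        calc (rA A n) ^ b ≤ M ^ b := Nat.pow_le_pow_left (hr.trans e1) b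
          _ ≤ C4 ^ b * (2 ^ b * 2) + M ^ b := Nat.le_add_left _ _
          _ = (C4 ^ b * (2 ^ b * 2) + M ^ b) * 1 := (mul_one _).symm
          _ ≤ _ := Nat.mul_le_mul_left _ (by omega)
      · push Not at hii
        have hlvb := hi1 i (le_trans (Nat.le_add_right i1 (2 ^ N1)) (by rw [← hi0]; exact hii))
        have e1 : (ρ i) ^ b ≤ κ i := by
          rcases Nat.eq_zero_or_pos (ρ i) with h | h
          · rw [h, zero_pow (by omega)]
            exact Nat.zero_le _
          · refine (Nat.pow_le_pow_iff_left (show 3 ≠ 0 by norm_num)).1 ?_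
            calc ((ρ i) ^ b) ^ 3 = (ρ i) ^ (3 * b) := by rw [← pow_mul, mul_comm]
              _ ≤ (ρ i) ^ (lv i + 2) := Nat.pow_le_pow_right h (by omega)
              _ ≤ cs (lv i) * (u i + 2) ^ 2 := hρ2 i
              _ ≤ κ i * (κ i) ^ 2 := by
                  refine Nat.mul_le_mul ((hlvc i).trans (Nat.log_le_self _ _))
                    (Nat.pow_le_pow_left ?_ 2)
                  have := hu32 i
                  have := hκbig i
                  omega
              _ = (κ i) ^ 3 := by ring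
        have e2 : (4 * (Nat.log 2 (κ i)) ^ 2) ^ b ≤ κ i := by
          have f1 : 2 ^ N1 ≤ κ i := by
            have := hiκ i
            omega
          have f2 : N1 ≤ Nat.log 2 (κ i) := by
            calc N1 = Nat.log 2 (2 ^ N1) := (Nat.log_pow (by norm_num) _).symm
              _ ≤ Nat.log 2 (κ i) := Nat.log_mono_right f1
          have f3 := hlg i
          have hk0 : κ i ≠ 0 := by
            have := hκbig i
            omega
          calc (4 * (Nat.log 2 (κ i)) ^ 2) ^ b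
              ≤ (Nat.log 2 (κ i) * (Nat.log 2 (κ i)) ^ 2) ^ b :=
                Nat.pow_le_pow_left (Nat.mul_le_mul_right _ (by omega)) b
            _ = (Nat.log 2 (κ i)) ^ (3 * b) := by rw [← pow_succ', ← pow_mul]
            _ ≤ 2 ^ (Nat.log 2 (κ i)) := hN1 _ f2
            _ ≤ κ i := Nat.pow_log_le_self 2 hk0
        have e3 : (ρ i + 4 * (Nat.log 2 (κ i)) ^ 2) ^ b ≤ 2 ^ b * 2 * κ i := by
          have g1 : ρ i + 4 * (Nat.log 2 (κ i)) ^ 2 ≤
              2 * max (ρ i) (4 * (Nat.log 2 (κ i)) ^ 2) := by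
            have := le_max_left (ρ i) (4 * (Nat.log 2 (κ i)) ^ 2)
            have := le_max_right (ρ i) (4 * (Nat.log 2 (κ i)) ^ 2)
            omega
          have g2 : (max (ρ i) (4 * (Nat.log 2 (κ i)) ^ 2)) ^ b ≤ 2 * κ i := by
            rcases max_choice (ρ i) (4 * (Nat.log 2 (κ i)) ^ 2) with h | h
            · rw [h]; omega
            · rw [h]; omega
          calc (ρ i + 4 * (Nat.log 2 (κ i)) ^ 2) ^ b
              ≤ (2 * max (ρ i) (4 * (Nat.log 2 (κ i)) ^ 2)) ^ b := Nat.pow_le_pow_left g1 b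
            _ = 2 ^ b * (max (ρ i) (4 * (Nat.log 2 (κ i)) ^ 2)) ^ b := mul_pow _ _ _
            _ ≤ 2 ^ b * (2 * κ i) := Nat.mul_le_mul_left _ g2
            _ = 2 ^ b * 2 * κ i := by ring
        calc (rA A n) ^ b ≤ (C4 * (ρ i + 4 * (Nat.log 2 (κ i)) ^ 2)) ^ b :=
              Nat.pow_le_pow_left hr b
          _ = C4 ^ b * (ρ i + 4 * (Nat.log 2 (κ i)) ^ 2) ^ b := mul_pow _ _ _
          _ ≤ C4 ^ b * (2 ^ b * 2 * κ i) := Nat.mul_le_mul_left _ e3
          _ = C4 ^ b * (2 ^ b * 2) * κ i := by ring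
          _ ≤ (C4 ^ b * (2 ^ b * 2) + M ^ b) * (Nat.log 2 n + 1) :=
              Nat.mul_le_mul (Nat.le_add_right _ _) (by omega)
  · -- bad scales
    intro N
    have hstep : ∀ i, bc A (8 * κ (i + 1)) ≤ bc A (8 * κ i) +
        (13 + 8 * gm (κ (i + 1)) + 10 * bc (Bs (lv i)) (u i)) := by
      intro i
      have hm1 : 2 ^ (8 * κ i) ≤ (s.p i) ^ 8 := by
        have := (s.lo i).le
        rw [hsκ i] at this
        calc 2 ^ (8 * κ i) = (2 ^ κ i) ^ 8 := by rw [← pow_mul, mul_comm]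
          _ ≤ (s.p i) ^ 8 := Nat.pow_le_pow_left this 8
      have hm2 : (s.p i) ^ 8 ≤ 2 ^ (8 * κ i + 8) := by
        have := s.hi i
        rw [hsκ i] at this
        calc (s.p i) ^ 8 ≤ (2 ^ (κ i + 1)) ^ 8 := Nat.pow_le_pow_left this 8
          _ = 2 ^ (8 * κ i + 8) := by rw [← pow_mul]; congr 1; ring
      have e1 := bc_window A (Bs (lv i)) (κ' := κ (i + 1)) (u := u i) hm1 hm2
        (fun n hn h => hA2 i n hn (by rw [hsB i]; exact h))
      have e2 := hu8 i
      have e3 : 8 * κ (i + 1) - (8 * κ i + u i) = 8 * gm (κ (i + 1)) := by omega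
      rw [e3] at e1
      exact e1
    obtain ⟨i1, hi1⟩ := hlvT (240 * N)
    obtain ⟨i2, hi2⟩ : ∃ i2, i2 = i1 + 2 ^ (100 * (N + 1)) := ⟨_, rfl⟩
    have hgain : ∀ i ≥ i2, N * (13 + 8 * gm (κ (i + 1)) + 10 * bc (Bs (lv i)) (u i)) ≤
        κ (i + 1) - κ i := by
      intro i hi
      obtain ⟨l, hl⟩ : ∃ l, l = Nat.log 2 (κ i) := ⟨_, rfl⟩
      obtain ⟨Dd, hDd⟩ : ∃ Dd, Dd = κ i / l := ⟨_, rfl⟩
      have hdiff : κ (i + 1) - κ i = Dd := by
        have := hκs i
        rw [← hl, ← hDd] at this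
        omega
      have f1 : 2 ^ (100 * (N + 1)) ≤ κ i := by
        have := hiκ i
        omega
      have f2 : 100 * (N + 1) ≤ l := by
        rw [hl]
        calc 100 * (N + 1) = Nat.log 2 (2 ^ (100 * (N + 1))) :=
              (Nat.log_pow (by norm_num) _).symm
          _ ≤ Nat.log 2 (κ i) := Nat.log_mono_right f1
      have hFi := F i
      rw [← hl] at hFi
      rw [← hDd] at hFi
      have f3 : l ^ 4 ≤ Dd := hFi.2.2.1
      have f4 : gm (κ (i + 1)) ≤ Dd / l := by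
        have := hFi.2.2.2.2.2.1
        have h9 := hκs i
        rw [← hl, ← hDd] at h9
        rw [h9]
        exact this
      have f5 : l ≤ Dd := le_trans (Nat.le_self_pow (by norm_num) l) f3
      -- the three parts
      have g1 : N * 13 * 3 ≤ Dd := by omega
      have g2 : N * (8 * gm (κ (i + 1))) * 3 ≤ Dd := by
        calc N * (8 * gm (κ (i + 1))) * 3 = (24 * N) * gm (κ (i + 1)) := by ring
          _ ≤ l * (Dd / l) := Nat.mul_le_mul (by omega) f4
          _ ≤ Dd := Nat.mul_div_le _ _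
      have g3 : N * (10 * bc (Bs (lv i)) (u i)) * 3 ≤ Dd := by
        obtain ⟨a, ha⟩ : ∃ a, a = lv i := ⟨_, rfl⟩
        have h1 := hi1 i (le_trans (Nat.le_add_right i1 (2 ^ (100 * (N + 1))))
          (by rw [← hi2]; exact hi))
        have h2 : (bc (Bs (lv i)) (u i)) ^ (lv i + 2) ≤ cs (lv i) * (u i) ^ (lv i + 1) :=
          (hBs (lv i)).bad (u i)
        have h3 := hlvP i
        have h4 := hule i
        rw [← hl] at h3 h4
        rw [← hDd] at h4
        rw [← ha] at h1 h2 h3 ⊢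
        refine (Nat.pow_le_pow_iff_left (show a + 2 ≠ 0 by omega)).1 ?_
        calc (N * (10 * bc (Bs a) (u i)) * 3) ^ (a + 2)
            = (30 * N) ^ (a + 2) * (bc (Bs a) (u i)) ^ (a + 2) := by
              rw [← mul_pow]; congr 1; ring
          _ ≤ (30 * N) ^ (a + 2) * (cs a * (u i) ^ (a + 1)) := Nat.mul_le_mul_left _ h2
          _ ≤ (30 * N) ^ (a + 2) * (cs a * (8 * Dd) ^ (a + 1)) :=
              Nat.mul_le_mul_left _ (Nat.mul_le_mul_left _ (Nat.pow_le_pow_left h4 _))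
          _ = ((30 * N) ^ (a + 2) * 8 ^ (a + 1)) * cs a * Dd ^ (a + 1) := by
              rw [mul_pow]; ring
          _ ≤ ((30 * N) ^ (a + 2) * 8 ^ (a + 2)) * cs a * Dd ^ (a + 1) := by
              refine Nat.mul_le_mul_right _ (Nat.mul_le_mul_right _ (Nat.mul_le_mul_left _ ?_))
              exact Nat.pow_le_pow_right (by norm_num) (by omega)
          _ = cs a * (240 * N) ^ (a + 2) * Dd ^ (a + 1) := by
              rw [← mul_pow]
              have : 30 * N * 8 = 240 * N := by ring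
              rw [this]
              ring
          _ ≤ cs a * (a + 2) ^ (a + 2) * Dd ^ (a + 1) := by
              refine Nat.mul_le_mul_right _ (Nat.mul_le_mul_left _ ?_)
              exact Nat.pow_le_pow_left (by omega) _
          _ ≤ Dd * Dd ^ (a + 1) := Nat.mul_le_mul_right _ (h3.trans f5)
          _ = Dd ^ (a + 2) := by ring
      rw [hdiff]
      have g4 : N * (13 + 8 * gm (κ (i + 1)) + 10 * bc (Bs (lv i)) (u i)) =
          N * 13 + N * (8 * gm (κ (i + 1))) + N * (10 * bc (Bs (lv i)) (u i)) := by ring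
      omega
    have hsum : ∀ d, N * bc A (8 * κ (i2 + d)) ≤ N * (8 * κ i2) + κ (i2 + d) := by
      intro d
      induction d with
      | zero =>
        have := Nat.mul_le_mul_left N (bc_le A (8 * κ i2))
        rw [Nat.add_zero]
        omega
      | succ d ih =>
        have e1 := Nat.mul_le_mul_left N (hstep (i2 + d))
        have e2 := hgain (i2 + d) (by omega)
        have e3 : N * (bc A (8 * κ (i2 + d)) +
            (13 + 8 * gm (κ (i2 + d + 1)) + 10 * bc (Bs (lv (i2 + d))) (u (i2 + d)))) =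
            N * bc A (8 * κ (i2 + d)) + N * (13 + 8 * gm (κ (i2 + d + 1)) +
              10 * bc (Bs (lv (i2 + d))) (u (i2 + d))) := Nat.mul_add _ _ _
        have e4 := hκ1 (i2 + d)
        rw [← Nat.add_assoc]
        omega
    refine ⟨8 * κ i2 + 1 + N * (16 * κ i2), fun K hK => ?_⟩
    have hex : ∃ d, K ≤ 8 * κ (i2 + d) := by
      refine ⟨K, ?_⟩
      have := hiκ (i2 + K)
      omega
    obtain ⟨m, hm, hmin⟩ : ∃ m, K ≤ 8 * κ (i2 + m) ∧ ∀ d < m, ¬ K ≤ 8 * κ (i2 + d) :=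
      ⟨Nat.find hex, Nat.find_spec hex, fun d hd => Nat.find_min hex hd⟩
    have hm0 : m ≠ 0 := by
      rintro rfl
      rw [Nat.add_zero] at hm
      omega
    obtain ⟨d, rfl⟩ := Nat.exists_eq_succ_of_ne_zero hm0
    have hd : 8 * κ (i2 + d) < K := not_le.1 (hmin d (Nat.lt_succ_self d))
    have e1 := hsum (d + 1)
    have e2 := Nat.mul_le_mul_left N (bc_mono A hm)
    have e3 : κ (i2 + (d + 1)) ≤ 2 * κ (i2 + d) := by
      rw [← Nat.add_assoc, hκs]
      have := Nat.div_le_self (κ (i2 + d)) (Nat.log 2 (κ (i2 + d)))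
      omega
    have e4 : N * (16 * κ i2) = 2 * (N * (8 * κ i2)) := by ring
    have e5 : d.succ = d + 1 := rfl
    rw [e5] at e2
    omega

end Pool.Agent.Helper667_AS
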