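import Pool.Agent.Helper667_AS.Spr

/-!
# Hits between a block and a very sparse well distributed set of smaller numbers
-/

set_option autoImplicit false

namespace Pool.Agent.Helper667_AS

open Finset Pool.Agent.H125R2.ET

/-- the hits between a block and a given well distributed set, which is thin modulo `p ^ 2` -/
def FinW (C : ℕ) : Prop :=
  ∀ g C2 : ℕ, ∃ C3 k0 : ℕ, ∀ k ≥ k0, ∀ γ : ℕ, 1 ≤ γ → 32 * γ ≤ k → ∀ (p : ℕ) (hp : 0 < p)
    (D : Finset ℕ), 2 ^ k < p →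
    p ≤ 2 ^ (k + 1) → IsBase C p D → ∀ Y : Finset ℕ, (∀ y ∈ Y, y < (C + 4) * p ^ 8) →
    ClsLE (p ^ 6) Y g → ∀ h : ℕ, ClsLE (p ^ 4) Y h → h ^ 2 ≤ 2 ^ k →
    ∀ G : ℕ, ClsLE (p ^ 2) Y G → 2 ^ γ * G ≤ C2 * p ^ 2 →
    (block p hp D).Pr (fun ω => ¬ ∀ n, ((((block p hp D).S ω) ∩ refl n Y).card : ℝ) ≤
      C3 * k / γ) ≤ 1 / 2 ^ (k + 3)

theorem fin_w (C : ℕ) (hM : BlockMom C) (hR : BlockRange C) : FinW C := by
  intro g C2
  obtain ⟨K, hK, hM⟩ := hM
  obtain ⟨M, hMM⟩ := exists_nat_ge K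
  refine ⟨2 * (g + 1) * (⌈K * C2⌉₊ + 20), 4 * M + C + 40, ?_⟩
  intro k hk γ hγ1 hγ p hp D hp1 hp2 hD Y hY h6 h h4 hh G h2 hG
  have hk2k : k < 2 ^ k := Nat.lt_two_pow_self
  have hkR : (40 : ℝ) ≤ k := by exact_mod_cast (by omega : 40 ≤ k)
  have hγR : (0 : ℝ) < γ := by exact_mod_cast hγ1
  set T : ℝ := ((((2 * (g + 1) * (⌈K * C2⌉₊ + 20) : ℕ) : ℝ))) * k / γ with hT
  have hT0 : 0 < T := by
    rw [hT]
    apply div_pos _ hγR
    apply mul_pos _ (by linarith)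
    exact_mod_cast (by positivity : 0 < 2 * (g + 1) * (⌈K * C2⌉₊ + 20))
  set N : ℕ := 2 * ((C + 4) * 2 ^ (8 * k + 8)) with hN
  -- the range
  have hrange : ∀ ω : (block p hp D).Ω, ∀ n, N ≤ n →
      (((((block p hp D).S ω) ∩ refl n Y).card : ℕ) : ℝ) < T := by
    intro ω n hn
    have he : ((block p hp D).S ω) ∩ refl n Y = ∅ := by
      rw [Finset.eq_empty_iff_forall_notMem]
      intro s hs
      rw [mem_inter, mem_refl] at hs
      obtain ⟨hs1, hs2, hs3⟩ := hs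
      have a1 := ((hR p hp (by omega) (by omega) D hD ω).1 s hs1).2
      have a2 := hY _ hs3
      have a3 : p ^ 8 ≤ 2 ^ (8 * k + 8) := by
        calc p ^ 8 ≤ (2 ^ (k + 1)) ^ 8 := Nat.pow_le_pow_left hp2 8
          _ = 2 ^ (8 * k + 8) := by rw [← pow_mul]; ring_nf
      have a4 : (C + 4) * p ^ 8 ≤ (C + 4) * 2 ^ (8 * k + 8) := Nat.mul_le_mul_left _ a3
      omega
    rw [he]
    simpa using hT0
  -- the condition
  have hcond : K * 2 ^ γ * (h : ℝ) ≤ p := by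
    have e1 : (M * 2 ^ γ * h) ^ 2 ≤ p ^ 2 := by
      have f1 : M ^ 2 ≤ 2 ^ (2 * M) := by
        calc M ^ 2 ≤ (2 ^ M) ^ 2 := Nat.pow_le_pow_left Nat.lt_two_pow_self.le 2
          _ = 2 ^ (2 * M) := by rw [← pow_mul, mul_comm]
      calc (M * 2 ^ γ * h) ^ 2 = M ^ 2 * 2 ^ (2 * γ) * h ^ 2 := by
            rw [mul_pow, mul_pow, ← pow_mul, mul_comm γ 2]
        _ ≤ 2 ^ (2 * M) * 2 ^ (2 * γ) * 2 ^ k :=
            Nat.mul_le_mul (Nat.mul_le_mul f1 le_rfl) hh
        _ = 2 ^ (2 * M + 2 * γ + k) := by rw [← pow_add, ← pow_add]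
        _ ≤ 2 ^ (2 * k) := Nat.pow_le_pow_right (by norm_num) (by omega)
        _ = (2 ^ k) ^ 2 := by rw [← pow_mul, mul_comm]
        _ ≤ p ^ 2 := Nat.pow_le_pow_left hp1.le 2
    have e2 : M * 2 ^ γ * h ≤ p := (Nat.pow_le_pow_iff_left (by norm_num)).1 e1
    calc K * 2 ^ γ * (h : ℝ) ≤ M * 2 ^ γ * (h : ℝ) := by gcongr
      _ ≤ p := by exact_mod_cast e2
  -- one value of n
  have hone : ∀ n, (block p hp D).Pr (fun ω => T ≤ ((((block p hp D).S ω) ∩ refl n Y).card : ℝ)) ≤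
      Real.exp (-(20 * k)) := by
    intro n
    set lam : ℝ := (γ : ℝ) * Real.log 2 / ((g + 1 : ℕ) : ℝ) with hlam
    have hg1 : (0 : ℝ) < ((g + 1 : ℕ) : ℝ) := by exact_mod_cast Nat.succ_pos g
    have hlog2 : 0 < Real.log 2 := Real.log_pos (by norm_num)
    have hlam0 : 0 ≤ lam := by rw [hlam]; positivity
    have hexp : Real.exp (lam * ((g + 1 : ℕ) : ℝ)) = 2 ^ γ := by
      rw [hlam, div_mul_cancel₀ _ hg1.ne', Real.exp_nat_mul, Real.exp_log (by norm_num)]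
    have hmom := hM p hp D hD lam hlam0 (g + 1) h G (refl n Y)
      (T15_cls_mono (T15_cls_refl h6 n) (Nat.le_succ g)) (T15_cls_refl h4 n)
      (T15_cls_refl h2 n) (by rw [hexp]; exact hcond)
    have hmark := Pr_hits_le (block p hp D) hlam0 (refl n Y) T
    refine le_trans hmark ?_
    have hpR : (0 : ℝ) < p := by exact_mod_cast hp
    have hp0 : (0 : ℝ) < (p : ℝ) ^ 2 := by positivity
    have e1 : K * Real.exp (lam * ((g + 1 : ℕ) : ℝ)) * (G : ℝ) / (p : ℝ) ^ 2 ≤ K * C2 * k := by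
      rw [hexp, div_le_iff₀ hp0]
      have c0 : (2 : ℝ) ^ γ * G ≤ C2 * (p : ℝ) ^ 2 := by exact_mod_cast hG
      calc K * 2 ^ γ * (G : ℝ) = K * (2 ^ γ * G) := by ring
        _ ≤ K * (C2 * (p : ℝ) ^ 2) := mul_le_mul_of_nonneg_left c0 hK.le
        _ = K * C2 * 1 * (p : ℝ) ^ 2 := by ring
        _ ≤ K * C2 * k * (p : ℝ) ^ 2 := by
            refine mul_le_mul_of_nonneg_right ?_ hp0.le
            refine mul_le_mul_of_nonneg_left (by linarith) (by positivity)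
    have e2 : ((⌈K * C2⌉₊ + 20 : ℕ) : ℝ) * k ≤ lam * T := by
      have f2 : (0 : ℝ) ≤ ((⌈K * C2⌉₊ + 20 : ℕ) : ℝ) * k := by positivity
      have f3 : lam * T = (2 * Real.log 2) * (((⌈K * C2⌉₊ + 20 : ℕ) : ℝ) * k) := by
        rw [hlam, hT]
        push_cast
        have : ((g : ℝ) + 1) ≠ 0 := by positivity
        field_simp
      have f4 : (1 : ℝ) ≤ 2 * Real.log 2 := by
        have := Real.log_two_gt_d9
        linarith
      rw [f3]
      nlinarith
    calc Real.exp (-(lam * T)) * (block p hp D).mom lam (refl n Y)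
        ≤ Real.exp (-(((⌈K * C2⌉₊ + 20 : ℕ) : ℝ) * k)) * Real.exp (K * C2 * k) := by
          refine mul_le_mul ?_ (hmom.trans ?_) (mom_nonneg _ _ _) (Real.exp_pos _).le
          · rw [Real.exp_le_exp]; linarith
          · rw [Real.exp_le_exp]; exact e1
      _ = Real.exp (-(((⌈K * C2⌉₊ + 20 : ℕ) : ℝ) * k) + K * C2 * k) :=
          (Real.exp_add _ _).symm
      _ ≤ Real.exp (-(20 * k)) := by
          rw [Real.exp_le_exp]
          have c1 : K * C2 ≤ (⌈K * C2⌉₊ : ℝ) := Nat.le_ceil _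
          push_cast
          nlinarith
  -- union bound
  calc (block p hp D).Pr (fun ω => ¬ ∀ n, ((((block p hp D).S ω) ∩ refl n Y).card : ℝ) ≤ T)
      ≤ (block p hp D).Pr (fun ω => ∃ n ∈ range N,
          T ≤ ((((block p hp D).S ω) ∩ refl n Y).card : ℝ)) := by
        apply Pr_mono
        intro ω hω
        push Not at hω
        obtain ⟨n, hn⟩ := hω
        refine ⟨n, ?_, hn.le⟩
        rw [mem_range]
        by_contra hc
        have := hrange ω n (by omega)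
        linarith
    _ ≤ ∑ n ∈ range N, (block p hp D).Pr (fun ω =>
          T ≤ ((((block p hp D).S ω) ∩ refl n Y).card : ℝ)) := Pr_exists_le _ _ _
    _ ≤ ∑ n ∈ range N, Real.exp (-(20 * k)) := Finset.sum_le_sum (fun n _ => hone n)
    _ = N * Real.exp (-(20 * k)) := by rw [Finset.sum_const, card_range, nsmul_eq_mul]
    _ ≤ 1 / 2 ^ (k + 3) := by
        have d1 : (2 : ℝ) ^ (20 * k) ≤ Real.exp (20 * k) := by
          have : (2 : ℝ) ≤ Real.exp 1 := by
            have := Real.add_one_le_exp (1 : ℝ)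
            linarith
          calc (2 : ℝ) ^ (20 * k) ≤ (Real.exp 1) ^ (20 * k) := pow_le_pow_left₀ (by norm_num) this _
            _ = Real.exp (20 * k) := by
              rw [← Real.exp_nat_mul]
              push_cast
              rw [mul_one]
        have d2 : N * 2 ^ (k + 3) ≤ 2 ^ (20 * k) := by
          rw [hN]
          have f1 : C + 4 ≤ 2 ^ (C + 4) := Nat.lt_two_pow_self.le
          calc 2 * ((C + 4) * 2 ^ (8 * k + 8)) * 2 ^ (k + 3)
              ≤ 2 * (2 ^ (C + 4) * 2 ^ (8 * k + 8)) * 2 ^ (k + 3) := by gcongr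
            _ = 2 ^ (1 + (C + 4) + (8 * k + 8) + (k + 3)) := by
                ring
            _ ≤ 2 ^ (20 * k) := Nat.pow_le_pow_right (by norm_num) (by omega)
        have d3 : (N : ℝ) * 2 ^ (k + 3) ≤ 2 ^ (20 * k) := by exact_mod_cast d2
        rw [Real.exp_neg, ← div_eq_mul_inv, div_le_div_iff₀ (Real.exp_pos _) (by positivity)]
        linarith

end Pool.Agent.Helper667_AS
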