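import Pool.Agent.Helper667_AS.Count

/-!
# Good sets: slowly growing representation function, few bad scales
-/

set_option autoImplicit false

namespace Pool.Agent.Helper667_AS

open Finset Pool.Agent.H125R2.ET

/-- the scale `k` is bad: some number in `[2^k, 2^(k+1))` is not in `A + A` -/
def Bad (A : Set ℕ) (k : ℕ) : Prop :=
  ∃ n, 2 ^ k ≤ n ∧ n < 2 ^ (k + 1) ∧ ¬ ∃ a ∈ A, ∃ b ∈ A, a + b = n

open Classical in
/-- the number of bad scales below `K` -/
noncomputable def bc (A : Set ℕ) (K : ℕ) : ℕ := ((range K).filter (fun k => Bad A k)).card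

/-- with `d = f + q`: `r_A(n) ^ d ≤ c (log n) ^ (q + 1)` and at most `c K ^ (1 - q / d)` bad scales
below `K` -/
structure Good (q f : ℕ) (A : Set ℕ) (c : ℕ) : Prop where
  rep : ∀ n, (rA A n) ^ (f + q) ≤ c * (Nat.log 2 n + 1) ^ (q + 1)
  bad : ∀ K, (bc A K) ^ (f + q) ≤ c * K ^ f

theorem repset_finite (A : Set ℕ) (n : ℕ) :
    ({x : ℕ × ℕ | x.1 ∈ A ∧ x.2 ∈ A ∧ x.1 + x.2 = n}).Finite := by
  refine ((antidiagonal n).finite_toSet).subset ?_
  rintro x ⟨_, _, h⟩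
  rw [mem_coe, HasAntidiagonal.mem_antidiagonal]
  exact h

theorem rA_le (A : Set ℕ) (n : ℕ) : rA A n ≤ n + 1 := by
  have h : {x : ℕ × ℕ | x.1 ∈ A ∧ x.2 ∈ A ∧ x.1 + x.2 = n} ⊆
      ((antidiagonal n : Finset (ℕ × ℕ)) : Set (ℕ × ℕ)) := by
    rintro x ⟨_, _, h⟩
    rw [mem_coe, HasAntidiagonal.mem_antidiagonal]
    exact h
  calc rA A n ≤ ((antidiagonal n : Finset (ℕ × ℕ)) : Set (ℕ × ℕ)).ncard :=
        Set.ncard_le_ncard h (Finset.finite_toSet _)
    _ = (antidiagonal n).card := Set.ncard_coe_finset _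
    _ = n + 1 := Finset.Nat.card_antidiagonal n

theorem of_one_le_rA {A : Set ℕ} {n : ℕ} (h : 1 ≤ rA A n) : ∃ a ∈ A, ∃ b ∈ A, a + b = n := by
  unfold rA at h
  obtain ⟨x, hx⟩ := (Set.ncard_pos (repset_finite A n)).1 h
  exact ⟨x.1, hx.1, x.2, hx.2.1, hx.2.2⟩

theorem repF_le_rA {A : Set ℕ} {B : Finset ℕ} (hB : ∀ b ∈ B, b ∈ A) (n : ℕ) :
    repF B B n ≤ rA A n := by
  unfold repF rA
  rw [← Set.ncard_coe_finset]
  refine Set.ncard_le_ncard ?_ (repset_finite A n)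
  intro x hx
  rw [mem_coe, mem_filter, mem_product] at hx
  exact ⟨hB _ hx.1.1, hB _ hx.1.2, hx.2⟩

theorem log_le {n : ℕ} (hn : 1 ≤ n) : Real.log n ≤ ((Nat.log 2 n + 1 : ℕ) : ℝ) := by
  have h1 : n < 2 ^ (Nat.log 2 n + 1) := Nat.lt_pow_succ_log_self (by norm_num) n
  have h2 : (n : ℝ) ≤ 2 ^ (Nat.log 2 n + 1) := by exact_mod_cast h1.le
  have h3 : Real.log n ≤ Real.log (2 ^ (Nat.log 2 n + 1)) :=
    Real.log_le_log (by exact_mod_cast hn) h2
  rw [Real.log_pow] at h3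
  have h4 : Real.log 2 ≤ 1 := by
    have := Real.log_two_lt_d9
    linarith
  have h5 : (0 : ℝ) ≤ ((Nat.log 2 n + 1 : ℕ) : ℝ) := Nat.cast_nonneg _
  nlinarith

/-- the thin basis -/
theorem good_base (q : ℕ) : ∃ (A : Set ℕ) (c : ℕ), Good q 1 A c := by
  obtain ⟨A, ⟨n₀, h1⟩, -, ⟨B, hB, h2⟩, -⟩ := thin_basis
  set δ : ℝ := Real.log (Real.log (3 : ℕ)) with hδ
  have hδ0 : 0 < δ := Real.log_pos (T22.one_lt_log (le_refl 3))
  set c1 : ℕ := ⌈B / δ⌉₊ + 3 with hc1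
  have hrep : ∀ n, rA A n ≤ c1 * (Nat.log 2 n + 1) := by
    intro n
    rcases Nat.lt_or_ge n 3 with hn | hn
    · calc rA A n ≤ n + 1 := rA_le A n
        _ ≤ c1 * 1 := by omega
        _ ≤ c1 * (Nat.log 2 n + 1) := Nat.mul_le_mul_left _ (by omega)
    · have e1 := h2 n hn
      have e2 : δ ≤ Real.log (Real.log n) := by
        refine Real.log_le_log ?_ (Real.log_le_log (by norm_num) (by exact_mod_cast hn))
        have := T22.one_lt_log (le_refl 3)
        linarith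
      have e3 : 0 ≤ Real.log n := by
        have := T22.one_lt_log hn
        linarith
      have e4 : Real.log n / Real.log (Real.log n) ≤ Real.log n / δ :=
        div_le_div_of_nonneg_left e3 hδ0 e2
      have e5 : (rA A n : ℝ) ≤ ((c1 * (Nat.log 2 n + 1) : ℕ) : ℝ) := by
        calc (rA A n : ℝ) ≤ B * (Real.log n / Real.log (Real.log n)) := e1
          _ ≤ B * (Real.log n / δ) := mul_le_mul_of_nonneg_left e4 hB.le
          _ = B / δ * Real.log n := by ring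
          _ ≤ c1 * ((Nat.log 2 n + 1 : ℕ) : ℝ) := by
              refine mul_le_mul ?_ (log_le (by omega)) e3 (Nat.cast_nonneg _)
              rw [hc1]
              push_cast
              have := Nat.le_ceil (B / δ)
              linarith
          _ = ((c1 * (Nat.log 2 n + 1) : ℕ) : ℝ) := by push_cast; ring
      exact_mod_cast e5
  refine ⟨A, c1 ^ (q + 1) + n₀ ^ q, ?_, ?_⟩
  · intro n
    rw [Nat.add_comm 1 q]
    calc (rA A n) ^ (q + 1) ≤ (c1 * (Nat.log 2 n + 1)) ^ (q + 1) :=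
          Nat.pow_le_pow_left (hrep n) _
      _ = c1 ^ (q + 1) * (Nat.log 2 n + 1) ^ (q + 1) := mul_pow _ _ _
      _ ≤ (c1 ^ (q + 1) + n₀ ^ q) * (Nat.log 2 n + 1) ^ (q + 1) :=
          Nat.mul_le_mul_right _ (Nat.le_add_right _ _)
  · intro K
    classical
    have e1 : bc A K ≤ K := by
      unfold bc
      exact (card_filter_le _ _).trans (card_range K).le
    have e2 : bc A K ≤ n₀ := by
      unfold bc
      calc _ ≤ (range n₀).card := by
            refine card_le_card ?_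
            intro k hk
            rw [mem_filter] at hk
            obtain ⟨-, n, hn1, hn2, hn3⟩ := hk
            rw [mem_range]
            by_contra hc
            push Not at hc
            have : k < 2 ^ k := Nat.lt_two_pow_self
            exact hn3 (of_one_le_rA (h1 n (by omega)))
        _ = n₀ := card_range _
    calc (bc A K) ^ (1 + q) = (bc A K) ^ q * bc A K := by rw [Nat.add_comm, pow_succ]
      _ ≤ n₀ ^ q * K := Nat.mul_le_mul (Nat.pow_le_pow_left e2 q) e1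
      _ ≤ (c1 ^ (q + 1) + n₀ ^ q) * K ^ 1 := by
          rw [pow_one]
          exact Nat.mul_le_mul_right _ (Nat.le_add_left _ _)

/-! ### arithmetic of the scales -/

theorem pow_succ_sub (x n : ℕ) : (x + 1) ^ (n + 1) ≤ x ^ (n + 1) + (n + 1) * (x + 1) ^ n := by
  induction n with
  | zero => simp
  | succ n ih =>
    calc (x + 1) ^ (n + 1 + 1) = (x + 1) * (x + 1) ^ (n + 1) := by ring
      _ ≤ (x + 1) ^ (n + 1) + x * (x ^ (n + 1) + (n + 1) * (x + 1) ^ n) := by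
          have := Nat.mul_le_mul_left x ih
          nlinarith
      _ = (x + 1) ^ (n + 1) + x ^ (n + 1 + 1) + (n + 1) * (x * (x + 1) ^ n) := by ring
      _ ≤ (x + 1) ^ (n + 1) + x ^ (n + 1 + 1) + (n + 1) * ((x + 1) * (x + 1) ^ n) := by
          gcongr
          omega
      _ = x ^ (n + 1 + 1) + (n + 1 + 1) * (x + 1) ^ (n + 1) := by ring

theorem pow_mono_gap {x y : ℕ} (f g : ℕ) (hy : 1 ≤ y) (hyx : y ≤ x) :
    y ^ (f + g) + x ^ f ≤ x ^ (f + g) + y ^ f := by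
  obtain ⟨P, hP⟩ : ∃ P, P = y ^ f := ⟨_, rfl⟩
  obtain ⟨Q, hQ⟩ : ∃ Q, Q = x ^ f := ⟨_, rfl⟩
  have hPQ : P ≤ Q := by rw [hP, hQ]; exact Nat.pow_le_pow_left hyx f
  have e1 : y ^ (f + g) = P * y ^ g := by rw [pow_add, hP]
  have e2 : x ^ (f + g) = Q * x ^ g := by rw [pow_add, hQ]
  rw [e1, e2, ← hP, ← hQ]
  obtain ⟨d, hd⟩ : ∃ d, Q = P + d := ⟨Q - P, by omega⟩
  have e3 : y ^ g ≤ x ^ g := Nat.pow_le_pow_left hyx g
  have e4 : 1 ≤ x ^ g := Nat.one_le_pow _ _ (by omega)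
  rw [hd]
  nlinarith [Nat.mul_le_mul_left P e3, Nat.mul_le_mul_left d e4]

theorem pow_step_gap (x f g : ℕ) : x ^ (f + (g + 1)) + (x + 1) ^ f ≤ (x + 1) ^ (f + (g + 1)) := by
  have e1 : x ^ f ≤ (x + 1) ^ f := Nat.pow_le_pow_left (Nat.le_succ x) f
  have e2 : x ^ (g + 1) + 1 ≤ (x + 1) ^ (g + 1) := by
    have h1 : x ^ g ≤ (x + 1) ^ g := Nat.pow_le_pow_left (Nat.le_succ x) g
    have h2 : 1 ≤ (x + 1) ^ g := Nat.one_le_pow _ _ (by omega)
    calc x ^ (g + 1) + 1 = x ^ g * x + 1 := by rw [pow_succ]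
      _ ≤ (x + 1) ^ g * x + (x + 1) ^ g := Nat.add_le_add (Nat.mul_le_mul_right _ h1) h2
      _ = (x + 1) ^ (g + 1) := by ring
  calc x ^ (f + (g + 1)) + (x + 1) ^ f = x ^ f * x ^ (g + 1) + (x + 1) ^ f := by rw [pow_add]
    _ ≤ (x + 1) ^ f * x ^ (g + 1) + (x + 1) ^ f := by
        exact Nat.add_le_add_right (Nat.mul_le_mul_right _ e1) _
    _ = (x + 1) ^ f * (x ^ (g + 1) + 1) := by ring
    _ ≤ (x + 1) ^ f * (x + 1) ^ (g + 1) := Nat.mul_le_mul_left _ e2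
    _ = (x + 1) ^ (f + (g + 1)) := (pow_add _ _ _).symm

/-- the width of the windows -/
def wdt (q f x : ℕ) : ℕ := 8 * ((x + 1) ^ (f + (q + 1)) - x ^ (f + (q + 1)) - (x + 1) ^ f)

theorem wdt_eq (q f x : ℕ) : 8 * x ^ (f + (q + 1)) + wdt q f x + 8 * (x + 1) ^ f =
    8 * (x + 1) ^ (f + (q + 1)) := by
  unfold wdt
  have := pow_step_gap x f q
  omega

theorem wdt_le {q f x : ℕ} (hx : 1 ≤ x) :
    wdt q f x ≤ 8 * (f + q + 1) * 2 ^ (f + q) * x ^ (f + q) := by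
  have h1 := pow_succ_sub x (f + q)
  have h2 : wdt q f x ≤ 8 * ((f + q + 1) * (x + 1) ^ (f + q)) := by
    unfold wdt
    have e1 : f + (q + 1) = f + q + 1 := rfl
    rw [e1]
    omega
  refine h2.trans ?_
  have h3 : (x + 1) ^ (f + q) ≤ (2 * x) ^ (f + q) := Nat.pow_le_pow_left (by omega) _
  calc 8 * ((f + q + 1) * (x + 1) ^ (f + q)) ≤ 8 * ((f + q + 1) * (2 * x) ^ (f + q)) :=
        Nat.mul_le_mul_left _ (Nat.mul_le_mul_left _ h3)
    _ = 8 * (f + q + 1) * 2 ^ (f + q) * x ^ (f + q) := by rw [mul_pow]; ring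

theorem pow_le_two_pow (d : ℕ) : ∃ N : ℕ, ∀ x ≥ N, x ^ d ≤ 2 ^ x := by
  have hlim := tendsto_pow_const_div_const_pow_of_one_lt d (r := 2) (by norm_num)
  have hev : ∀ᶠ k : ℕ in Filter.atTop, (k : ℝ) ^ d / (2 : ℝ) ^ k < 1 := by
    apply (tendsto_order.1 hlim).2
    norm_num
  obtain ⟨N, hN⟩ := Filter.eventually_atTop.1 hev
  refine ⟨N, fun x hx => ?_⟩
  have h1 := hN x hx
  rw [div_lt_one (by positivity)] at h1
  exact_mod_cast h1.le

end Pool.Agent.Helper667_AS
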