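import Pool.Agent.Helper667_AS.FinW

/-!
# The good sequence of wide blocks
-/

set_option autoImplicit false

namespace Pool.Agent.Helper667_AS

open Finset Pool.Agent.H125R2.ET

/-- the number of elements in a class of the union of the lower wide blocks -/
def lowG {C : ℕ} (s : WSys C) (C1 d i : ℕ) : ℕ :=
  ∑ j ∈ range i, (s.B j).card * (C1 * ((C + 4) * (s.p j) ^ 4 / d + s.κ j))

theorem low_cls {C : ℕ} (s : WSys C) {C1 d i : ℕ} (S : ℕ → Finset ℕ) (hd : 0 < d)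
    (hpd : ∀ j < i, ¬ s.p j ∣ d)
    (hlt : ∀ j < i, ∀ x ∈ S j, x < (C + 4) * (s.p j) ^ 8)
    (hreg : ∀ j < i, Reg C1 (s.p j) (s.κ j) (S j)) :
    ClsLE d ((range i).biUnion (fun j => wd ((s.p j) ^ 8) (s.B j) (S j))) (lowG s C1 d i) := by
  intro c
  have hsub : ((range i).biUnion (fun j => wd ((s.p j) ^ 8) (s.B j) (S j))).filter
      (fun x => x % d = c) ⊆
      (range i).biUnion (fun j => (wd ((s.p j) ^ 8) (s.B j) (S j)).filter (fun x => x % d = c)) := by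
    intro x hx
    rw [mem_filter, mem_biUnion] at hx
    obtain ⟨⟨j, hj, hx1⟩, hx2⟩ := hx
    rw [mem_biUnion]
    exact ⟨j, hj, mem_filter.2 ⟨hx1, hx2⟩⟩
  refine (card_le_card hsub).trans (card_biUnion_le.trans (sum_le_sum fun j hj => ?_))
  have hj' : j < i := mem_range.1 hj
  have hκ := s.Cκ j
  exact wd_class (fun c' => reg_class (hreg j hj') (hlt j hj') (s.prime j).pos (by omega) hd
    (hpd j hj') c') c

theorem Bcard_le {C : ℕ} (s : WSys C) (j : ℕ) : (s.B j).card ≤ 2 ^ s.u j := by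
  calc (s.B j).card ≤ (range (2 ^ s.u j)).card :=
        card_le_card (fun b hb => mem_range.2 (s.Blt j b hb))
    _ = 2 ^ s.u j := card_range _

theorem lowG_four {C : ℕ} (s : WSys C) {C1 i : ℕ} (hK : 4 * C1 ≤ s.κ i) :
    (lowG s C1 ((s.p i) ^ 4) i) ^ 2 ≤ 2 ^ s.κ i := by
  have h1 : ∀ j ∈ range i, (s.B j).card * (C1 * ((C + 4) * (s.p j) ^ 4 / (s.p i) ^ 4 + s.κ j)) ≤
      2 ^ (s.κ i / 32) * (C1 * (s.κ i + C + 5)) := by
    intro j hj
    have hj' : j < i := mem_range.1 hj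
    have hp := s.plt hj'
    have hκ := s.κlt hj'
    have hu := s.ule j
    refine Nat.mul_le_mul ((Bcard_le s j).trans (Nat.pow_le_pow_right (by norm_num) (by omega)))
      (Nat.mul_le_mul_left _ ?_)
    have h2 : (C + 4) * (s.p j) ^ 4 / (s.p i) ^ 4 ≤ C + 4 := by
      apply Nat.div_le_of_le_mul
      rw [mul_comm]
      exact Nat.mul_le_mul_right _ (Nat.pow_le_pow_left hp.le 4)
    omega
  have h3 : lowG s C1 ((s.p i) ^ 4) i ≤ i * (2 ^ (s.κ i / 32) * (C1 * (s.κ i + C + 5))) := by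
    unfold lowG
    refine (Finset.sum_le_card_nsmul _ _ _ h1).trans ?_
    rw [card_range, smul_eq_mul]
  have h4 : lowG s C1 ((s.p i) ^ 4) i ≤ 2 ^ (C1 + s.κ i / 32 + s.γ i) := by
    calc lowG s C1 ((s.p i) ^ 4) i ≤ i * (2 ^ (s.κ i / 32) * (C1 * (s.κ i + C + 5))) := h3
      _ = C1 * 2 ^ (s.κ i / 32) * (i * (s.κ i + C + 5)) := by ring
      _ ≤ 2 ^ C1 * 2 ^ (s.κ i / 32) * 2 ^ s.γ i :=
          Nat.mul_le_mul (Nat.mul_le_mul_right _ Nat.lt_two_pow_self.le) (s.iγ i)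
      _ = 2 ^ (C1 + s.κ i / 32 + s.γ i) := by rw [← pow_add, ← pow_add]
  calc (lowG s C1 ((s.p i) ^ 4) i) ^ 2 ≤ (2 ^ (C1 + s.κ i / 32 + s.γ i)) ^ 2 :=
        Nat.pow_le_pow_left h4 2
    _ = 2 ^ (2 * (C1 + s.κ i / 32 + s.γ i)) := by rw [← pow_mul, mul_comm]
    _ ≤ 2 ^ s.κ i := by
        refine Nat.pow_le_pow_right (by norm_num) ?_
        have h5 := s.γle i
        omega

theorem lowG_two {C : ℕ} (s : WSys C) {C1 i : ℕ} :
    2 ^ s.γ i * lowG s C1 ((s.p i) ^ 2) i ≤ (16 * C1 * (C + 4) + C1) * (s.p i) ^ 2 := by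
  obtain ⟨q, hq⟩ : ∃ q, q = s.p i := ⟨_, rfl⟩
  obtain ⟨γ, hγ⟩ : ∃ γ, γ = s.γ i := ⟨_, rfl⟩
  obtain ⟨k, hk⟩ : ∃ k, k = s.κ i := ⟨_, rfl⟩
  have hqlo : 2 ^ k < q := by rw [hq, hk]; exact s.lo i
  have hiγ : i * (k + C + 5) ≤ 2 ^ γ := by rw [hγ, hk]; exact s.iγ i
  have hγle : 32 * γ ≤ k := by rw [hγ, hk]; exact s.γle i
  rw [← hq, ← hγ]
  have hq2 : 0 < q ^ 2 := by
    have : 0 < q := lt_of_le_of_lt (Nat.zero_le _) hqlo
    exact pow_pos this 2
  have hi2 : i ≤ 2 ^ γ := by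
    have : i * 1 ≤ i * (k + C + 5) := Nat.mul_le_mul_left _ (by omega)
    omega
  -- first part
  have h1 : ∀ j ∈ range i, 2 ^ (2 * γ) * ((s.B j).card * ((C + 4) * (s.p j) ^ 4 / q ^ 2)) * q ^ 2 ≤
      16 * (C + 4) * q ^ 4 := by
    intro j hj
    have hj' : j < i := mem_range.1 hj
    have e1 : (2 ^ (3 * γ) * ((s.B j).card * (s.p j) ^ 4)) ^ 2 ≤ (16 * 2 ^ (4 * k)) ^ 2 := by
      have f1 : ((s.p j) ^ 4) ^ 2 ≤ 2 ^ (8 * s.κ j + 8) := by
        calc ((s.p j) ^ 4) ^ 2 = (s.p j) ^ 8 := by ring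
          _ ≤ (2 ^ (s.κ j + 1)) ^ 8 := Nat.pow_le_pow_left (s.hi j) 8
          _ = 2 ^ (8 * s.κ j + 8) := by rw [← pow_mul]; ring_nf
      have f2 := s.Bcard i j hj'
      have f3 := s.gap i j hj'
      rw [← hγ] at f2 f3
      rw [← hk] at f3
      calc (2 ^ (3 * γ) * ((s.B j).card * (s.p j) ^ 4)) ^ 2
          = 2 ^ (6 * γ) * ((s.B j).card ^ 2 * ((s.p j) ^ 4) ^ 2) := by
            rw [mul_pow, mul_pow, ← pow_mul]
            ring
        _ ≤ 2 ^ (6 * γ) * (2 ^ (s.u j + 2 * γ) * 2 ^ (8 * s.κ j + 8)) :=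
            Nat.mul_le_mul_left _ (Nat.mul_le_mul f2 f1)
        _ = 2 ^ (8 * γ + s.u j + 8 * s.κ j + 8) := by
            rw [← pow_add, ← pow_add]; congr 1; ring
        _ ≤ 2 ^ (8 * k + 8) := Nat.pow_le_pow_right (by norm_num) (by omega)
        _ = (16 * 2 ^ (4 * k)) ^ 2 := by rw [mul_pow, ← pow_mul]; ring
    have e2 : 2 ^ (3 * γ) * ((s.B j).card * (s.p j) ^ 4) ≤ 16 * 2 ^ (4 * k) :=
      (Nat.pow_le_pow_iff_left (by norm_num)).1 e1
    calc 2 ^ (2 * γ) * ((s.B j).card * ((C + 4) * (s.p j) ^ 4 / q ^ 2)) * q ^ 2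
        = 2 ^ (2 * γ) * (s.B j).card * ((C + 4) * (s.p j) ^ 4 / q ^ 2 * q ^ 2) := by ring
      _ ≤ 2 ^ (2 * γ) * (s.B j).card * ((C + 4) * (s.p j) ^ 4) :=
          Nat.mul_le_mul_left _ (Nat.div_mul_le_self _ _)
      _ = (C + 4) * (2 ^ (2 * γ) * ((s.B j).card * (s.p j) ^ 4)) := by ring
      _ ≤ (C + 4) * (2 ^ (3 * γ) * ((s.B j).card * (s.p j) ^ 4)) := by
          refine Nat.mul_le_mul_left _ (Nat.mul_le_mul_right _ ?_)
          exact Nat.pow_le_pow_right (by norm_num) (by omega)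
      _ ≤ (C + 4) * (16 * 2 ^ (4 * k)) := Nat.mul_le_mul_left _ e2
      _ = 16 * (C + 4) * (2 ^ k) ^ 4 := by rw [← pow_mul]; ring
      _ ≤ 16 * (C + 4) * q ^ 4 := Nat.mul_le_mul_left _ (Nat.pow_le_pow_left hqlo.le 4)
  have h2 : 2 ^ γ * ∑ j ∈ range i, (s.B j).card * ((C + 4) * (s.p j) ^ 4 / q ^ 2) ≤
      16 * (C + 4) * q ^ 2 := by
    refine Nat.le_of_mul_le_mul_right ?_ (mul_pos (Nat.pow_pos (n := γ) (show 0 < 2 by norm_num)) hq2)
    calc (2 ^ γ * ∑ j ∈ range i, (s.B j).card * ((C + 4) * (s.p j) ^ 4 / q ^ 2)) * (2 ^ γ * q ^ 2)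
        = ∑ j ∈ range i, 2 ^ (2 * γ) * ((s.B j).card * ((C + 4) * (s.p j) ^ 4 / q ^ 2)) * q ^ 2 := by
          rw [← Finset.sum_mul, ← Finset.mul_sum]
          ring
      _ ≤ i * (16 * (C + 4) * q ^ 4) := by
          refine (Finset.sum_le_card_nsmul _ _ _ h1).trans ?_
          rw [card_range, smul_eq_mul]
      _ ≤ 2 ^ γ * (16 * (C + 4) * q ^ 4) := Nat.mul_le_mul_right _ hi2
      _ = 16 * (C + 4) * q ^ 2 * (2 ^ γ * q ^ 2) := by ring
  -- second part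
  have h3 : 2 ^ γ * ∑ j ∈ range i, (s.B j).card * s.κ j ≤ q ^ 2 := by
    have e1 : ∀ j ∈ range i, (s.B j).card * s.κ j ≤ 2 ^ (k / 32) * (k + C + 5) := by
      intro j hj
      have hj' : j < i := mem_range.1 hj
      have hκ := s.κlt hj'
      have hu := s.ule j
      exact Nat.mul_le_mul ((Bcard_le s j).trans (Nat.pow_le_pow_right (by norm_num) (by omega)))
        (by omega)
    calc 2 ^ γ * ∑ j ∈ range i, (s.B j).card * s.κ j
        ≤ 2 ^ γ * (i * (2 ^ (k / 32) * (k + C + 5))) := by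
          refine Nat.mul_le_mul_left _ ((Finset.sum_le_card_nsmul _ _ _ e1).trans ?_)
          rw [card_range, smul_eq_mul]
      _ = 2 ^ γ * 2 ^ (k / 32) * (i * (k + C + 5)) := by ring
      _ ≤ 2 ^ γ * 2 ^ (k / 32) * 2 ^ γ := Nat.mul_le_mul_left _ hiγ
      _ = 2 ^ (γ + k / 32 + γ) := by rw [← pow_add, ← pow_add]
      _ ≤ 2 ^ (2 * k) := Nat.pow_le_pow_right (by norm_num) (by omega)
      _ = (2 ^ k) ^ 2 := by rw [← pow_mul, mul_comm]
      _ ≤ q ^ 2 := Nat.pow_le_pow_left hqlo.le 2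
  have h4 : lowG s C1 (q ^ 2) i = C1 * (∑ j ∈ range i, (s.B j).card * ((C + 4) * (s.p j) ^ 4 / q ^ 2)
      + ∑ j ∈ range i, (s.B j).card * s.κ j) := by
    unfold lowG
    rw [← Finset.sum_add_distrib, Finset.mul_sum]
    refine Finset.sum_congr rfl (fun j _ => ?_)
    ring
  rw [h4]
  calc 2 ^ γ * (C1 * (∑ j ∈ range i, (s.B j).card * ((C + 4) * (s.p j) ^ 4 / q ^ 2)
      + ∑ j ∈ range i, (s.B j).card * s.κ j))
      = C1 * (2 ^ γ * ∑ j ∈ range i, (s.B j).card * ((C + 4) * (s.p j) ^ 4 / q ^ 2) +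
        2 ^ γ * ∑ j ∈ range i, (s.B j).card * s.κ j) := by ring
    _ ≤ C1 * (16 * (C + 4) * q ^ 2 + q ^ 2) := Nat.mul_le_mul_left _ (Nat.add_le_add h2 h3)
    _ = (16 * C1 * (C + 4) + C1) * q ^ 2 := by ring

/-- the good sequence of wide blocks -/
theorem good_wide (C : ℕ) (hM : BlockMom C) (h0 : BlockRange C) (h1 : RegProb C) :
    ∃ C3 K0 : ℕ, ∀ (s : WSys C), (∀ i, K0 ≤ s.κ i) →
      ∃ ω : ∀ i, (s.X i).Ω, ∀ i n,
        ((((s.X i).S (ω i)) ∩ refl n ((range i).biUnion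
          (fun j => wd ((s.p j) ^ 8) (s.B j) ((s.X j).S (ω j))))).card : ℝ) ≤
        C3 * s.κ i / s.γ i := by
  obtain ⟨C1, k1, hReg⟩ := h1
  obtain ⟨g, K1, hSpr⟩ := spr_wide C hM h0
  obtain ⟨C3, k3, hFin⟩ := fin_w C hM h0 g (16 * C1 * (C + 4) + C1)
  refine ⟨C3, k1 + K1 + k3 + C + 4 * C1 + 8, ?_⟩
  intro s hK
  -- the events
  set F : ∀ i, (pre s.W i).Ω → (s.W i).Ω → Prop := fun i x w =>
    Reg C1 (s.p i) (s.κ i) ((s.X i).S w) ∧
      ∀ n, ((((s.X i).S w) ∩ refl n ((pre s.W i).S x)).card : ℝ) ≤ C3 * s.κ i / s.γ i with hFdef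
  set Sp : ∀ i, (pre s.W i).Ω → Prop := fun i x =>
    ClsLE ((s.p i) ^ 6) ((pre s.W i).S x) g with hSpdef
  obtain ⟨ω, hω⟩ := exists_good s.W (T18.GG s.W F Sp) F Sp (fun x hx => hx) (fun i x w => Iff.rfl)
    (by
      intro i x hx
      have hKi := hK i
      obtain ⟨ω, rfl⟩ := T18.pt_surj s.W i x
      obtain ⟨hF, hS⟩ := T18.GG_pt s.W F Sp ω i hx
      have hSpt : (pre s.W i).S (pt s.W ω i) = (range i).biUnion
          (fun j => wd ((s.p j) ^ 8) (s.B j) ((s.X j).S (ω j))) := T18.S_pt s.W ω i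
      have hlt : ∀ j < i, ∀ y ∈ (s.X j).S (ω j), y < (C + 4) * (s.p j) ^ 8 := by
        intro j hj y hy
        exact ((h0 (s.p j) (s.prime j).pos (by have := s.Cp j; omega)
          (by have := s.Cp j; omega) (s.D j) (s.base j) (ω j)).1 y hy).2
      have hnd : ∀ e : ℕ, ∀ j < i, ¬ s.p j ∣ (s.p i) ^ e := by
        intro e j hj hdvd
        have h1 := (s.prime j).dvd_of_dvd_pow hdvd
        have h2 := (Nat.prime_dvd_prime_iff_eq (s.prime j) (s.prime i)).1 h1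
        have := s.plt hj
        omega
      have hc4 := low_cls s (C1 := C1) (fun j => (s.X j).S (ω j)) (pow_pos (s.prime i).pos 4)
        (hnd 4) hlt (fun j hj => (hF j hj).1)
      have hc2 := low_cls s (C1 := C1) (fun j => (s.X j).S (ω j)) (pow_pos (s.prime i).pos 2)
        (hnd 2) hlt (fun j hj => (hF j hj).1)
      rw [← hSpt] at hc4 hc2
      have hY : ∀ y ∈ (pre s.W i).S (pt s.W ω i), y < (C + 4) * (s.p i) ^ 8 := by
        intro y hy
        obtain ⟨j, hj, w, hw⟩ := T14aux.mem_pre s.W i _ hy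
        have h5 := (s.range h0 j w y hw).2
        have h6 := s.below hj
        have h7 : 2 ^ (8 * s.κ i) ≤ (s.p i) ^ 8 := by
          calc 2 ^ (8 * s.κ i) = (2 ^ s.κ i) ^ 8 := by rw [← pow_mul, mul_comm]
            _ ≤ (s.p i) ^ 8 := Nat.pow_le_pow_left (s.lo i).le 8
        have h8 : 1 * (s.p i) ^ 8 ≤ (C + 4) * (s.p i) ^ 8 := Nat.mul_le_mul_right _ (by omega)
        omega
      have hfin := hFin (s.κ i) (by omega) (s.γ i) (by have := s.γC i; omega) (s.γle i) (s.p i)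
        (s.prime i).pos (s.D i) (s.lo i) (s.hi i) (s.base i) _ hY hS _ hc4
        (lowG_four s (by omega)) _ hc2 (lowG_two s)
      have hreg := hReg (s.κ i) (by omega) (s.p i) (s.prime i).pos (s.D i) (s.prime i) (s.lo i)
        (s.hi i) (s.base i)
      have hle : (s.W i).Pr (fun w => ¬ F i (pt s.W ω i) w) ≤
          (s.X i).Pr (fun w => ¬ Reg C1 (s.p i) (s.κ i) ((s.X i).S w) ∨
            ¬ ∀ n, ((((s.X i).S w) ∩ refl n ((pre s.W i).S (pt s.W ω i))).card : ℝ) ≤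
              C3 * s.κ i / s.γ i) :=
        Pr_mono (s.X i) (fun w hw => not_and_or.1 hw)
      refine hle.trans ((Pr_or_le _ _ _).trans ((add_le_add hreg hfin).trans ?_))
      have h8 : (2 : ℝ) ^ 3 ≤ 2 ^ (s.κ i + 3) := pow_le_pow_right₀ (by norm_num) (by omega)
      have h9 : (1 : ℝ) / 2 ^ (s.κ i + 3) ≤ 1 / 2 ^ 3 :=
        one_div_le_one_div_of_le (by norm_num) h8
      norm_num at h9 ⊢
      linarith)
    (by
      intro i
      refine (hSpr s (fun i => by have := hK i; omega) i).trans ?_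
      refine one_div_le_one_div_of_le (by positivity) ?_
      have h5 : (2 : ℝ) * 4 ^ i = 2 ^ (2 * i + 1) := by
        rw [pow_succ, pow_mul]
        norm_num
        ring
      rw [h5]
      have := s.idx i
      exact pow_le_pow_right₀ (by norm_num) (by omega))
  refine ⟨ω, fun i n => ?_⟩
  have h5 := ((T18.GG_pt s.W F Sp ω (i + 1) (hω (i + 1))).1 i (Nat.lt_succ_self i)).2 n
  rw [T18.S_pt] at h5
  exact h5

end Pool.Agent.Helper667_AS
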