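import Pool.Agent.Helper667_AS.Wide

/-!
# Classes modulo `q ^ 6` of the union of the lower wide blocks
-/

set_option autoImplicit false

namespace Pool.Agent.Helper667_AS

open Finset Pool.Agent.H125R2.ET Pool.Agent.H125R2.ET.T14aux

theorem mom_wblock {C : ℕ} {KM : ℝ} (hKM : 0 < KM)
    (hM : ∀ (p : ℕ) (hp : 0 < p) (D : Finset ℕ), IsBase C p D →
      ∀ (lam : ℝ), 0 ≤ lam → ∀ (g h G : ℕ) (V : Finset ℕ),
        ClsLE (p ^ 6) V g → ClsLE (p ^ 4) V h → ClsLE (p ^ 2) V G →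
        KM * Real.exp (lam * g) * h ≤ p →
        (block p hp D).mom lam V ≤ Real.exp (KM * Real.exp (lam * g) * G / (p : ℝ) ^ 2))
    (hR : BlockRange C) {M L k κ u : ℕ} (hMM : KM ≤ M)
    (hL : M * ((C + 5) * (2 * (C + 5))) ≤ 2 ^ L) (hLk : 8 * L ≤ k) (hk : C + 8 ≤ k)
    {p q : ℕ} (hp : p.Prime) (hq : q.Prime) (hpq : p < q)
    (hpk : C + 8 ≤ p) (hlo : 2 ^ κ < p) (hhi : p ≤ 2 ^ (κ + 1)) (hqk : 2 ^ k < q)
    (hu : 32 * u ≤ κ) (hκk : κ ≤ k)
    (D : Finset ℕ) (hD : IsBase C p D) (B : Finset ℕ) (hB : ∀ b ∈ B, b < 2 ^ u) {lam : ℝ}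
    (hlam : 0 ≤ lam) (hl : Real.exp (lam * ((C + 5 : ℕ) : ℝ)) ^ 4 = 2 ^ k) (c : ℕ) :
    (wRFS (p ^ 8) B (block p hp.pos D)).mom lam (Vc C q c) ≤ Real.exp (1 / (k : ℝ)) := by
  have hrange := fun t => (hR p hp.pos (by omega) (by omega) D hD t).1
  have hk0 : (0 : ℝ) < k := by
    have : 0 < k := by omega
    exact_mod_cast this
  have hm0 : 0 < p ^ 8 := pow_pos hp.pos 8
  have h2u : 1 ≤ 2 ^ u := Nat.one_le_two_pow
  have hWlt : ∀ ω : (block p hp.pos D).Ω, ∀ v ∈ wd (p ^ 8) B ((block p hp.pos D).S ω),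
      v < (C + 4 + 2 ^ u) * p ^ 8 := by
    intro ω v hv
    obtain ⟨b, hb, s, hs, rfl⟩ := mem_wd.1 hv
    have h1 := (hrange ω s hs).2
    have h2 : p ^ 8 * b ≤ p ^ 8 * 2 ^ u := Nat.mul_le_mul_left _ (hB b hb).le
    have h3 : (C + 4 + 2 ^ u) * p ^ 8 = (C + 4) * p ^ 8 + p ^ 8 * 2 ^ u := by ring
    omega
  by_cases h : (C + 4 + 2 ^ u) * p ^ 8 ≤ 256 * (C + 4) * q ^ 6
  · rw [mom_empty]
    · exact Real.one_le_exp (by positivity)
    · intro ω
      rw [← Finset.not_nonempty_iff_eq_empty]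
      rintro ⟨v, hv⟩
      rw [mem_inter] at hv
      have h1 := hWlt ω v hv.1
      have h2 := (mem_filter.1 hv.2).2.2
      omega
  · push Not at h
    have h6k : 6 * k ≤ 8 * κ + u := by
      by_contra hc
      push Not at hc
      have e1 : C + 4 + 2 ^ u ≤ 2 * (C + 4) * 2 ^ u := by nlinarith
      have e2 : p ^ 8 ≤ 2 ^ (8 * κ + 8) := by
        calc p ^ 8 ≤ (2 ^ (κ + 1)) ^ 8 := Nat.pow_le_pow_left hhi 8
          _ = 2 ^ (8 * κ + 8) := by rw [← pow_mul]; ring_nf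
      have e3 : (C + 4 + 2 ^ u) * p ^ 8 ≤ 256 * (C + 4) * q ^ 6 := by
        calc (C + 4 + 2 ^ u) * p ^ 8 ≤ (2 * (C + 4) * 2 ^ u) * 2 ^ (8 * κ + 8) :=
              Nat.mul_le_mul e1 e2
          _ = (C + 4) * 2 ^ (8 * κ + u + 9) := by ring
          _ ≤ (C + 4) * 2 ^ (6 * k + 8) :=
              Nat.mul_le_mul_left _ (Nat.pow_le_pow_right (by norm_num) (by omega))
          _ = 256 * (C + 4) * (2 ^ k) ^ 6 := by rw [← pow_mul]; ring
          _ ≤ 256 * (C + 4) * q ^ 6 := Nat.mul_le_mul_left _ (Nat.pow_le_pow_left hqk.le 6)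
      omega
    have hq1 : 1 ≤ q := hq.pos
    have hcq : C + 4 + 2 ^ u ≤ q := by
      obtain ⟨k', rfl⟩ : ∃ k', k = k' + 1 := ⟨k - 1, by omega⟩
      have e1 : C + 4 ≤ 2 ^ k' := le_trans (by omega) Nat.lt_two_pow_self.le
      have e2 : 2 ^ u ≤ 2 ^ k' := Nat.pow_le_pow_right (by norm_num) (by omega)
      have e3 : 2 ^ (k' + 1) = 2 ^ k' + 2 ^ k' := by ring
      omega
    set V : Finset ℕ := (Vc C q c).filter (fun v => v < (C + 4 + 2 ^ u) * p ^ 8) with hV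
    have hcong : (wRFS (p ^ 8) B (block p hp.pos D)).mom lam (Vc C q c) =
        (wRFS (p ^ 8) B (block p hp.pos D)).mom lam V := by
      apply mom_congr
      intro ω
      ext v
      simp only [mem_inter, hV, mem_filter]
      constructor
      · rintro ⟨h1, h2⟩
        exact ⟨h1, h2, hWlt ω v h1⟩
      · rintro ⟨h1, h2, -⟩
        exact ⟨h1, h2⟩
    -- classes
    have hcls : ∀ e : ℕ, ClsLE (p ^ e) V ((C + 4 + 2 ^ u) * p ^ 8 / (q ^ 6 * p ^ e) + 1) := by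
      intro e c'
      have hcop : Nat.Coprime (q ^ 6) (p ^ e) :=
        Nat.Coprime.pow 6 e ((Nat.coprime_primes hq hp).2 hpq.ne')
      refine card_le_of_modEq (N := (C + 4 + 2 ^ u) * p ^ 8) (M := q ^ 6 * p ^ e) ?_ ?_
      · intro v hv
        exact (mem_filter.1 (mem_filter.1 hv).1).2
      · intro v hv w hw
        have hv1 := (mem_filter.1 hv).2
        have hw1 := (mem_filter.1 hw).2
        have hv2 := (mem_filter.1 (mem_filter.1 (mem_filter.1 hv).1).1).2.1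
        have hw2 := (mem_filter.1 (mem_filter.1 (mem_filter.1 hw).1).1).2.1
        exact (Nat.modEq_and_modEq_iff_modEq_mul hcop).1 ⟨hv2.trans hw2.symm, hv1.trans hw1.symm⟩
    have h8 : ClsLE (p ^ 8) V 1 := by
      have h1 := hcls 8
      rw [Nat.div_eq_of_lt, zero_add] at h1
      · exact h1
      · refine Nat.mul_lt_mul_of_pos_right ?_ hm0
        calc C + 4 + 2 ^ u ≤ q := hcq
          _ < q ^ 6 := by
            have : q ^ 1 < q ^ 6 := Nat.pow_lt_pow_right hq.one_lt (by norm_num)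
            rwa [pow_one] at this
    have h6 : ClsLE (p ^ 6) V 1 := by
      have h1 := hcls 6
      rw [Nat.div_eq_of_lt, zero_add] at h1
      · exact h1
      · calc (C + 4 + 2 ^ u) * p ^ 8 = (C + 4 + 2 ^ u) * p ^ 2 * p ^ 6 := by ring
          _ < q ^ 6 * p ^ 6 := by
            refine Nat.mul_lt_mul_of_pos_right ?_ (pow_pos hp.pos 6)
            calc (C + 4 + 2 ^ u) * p ^ 2 ≤ q * p ^ 2 := Nat.mul_le_mul_right _ hcq
              _ < q * q ^ 2 := by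
                refine Nat.mul_lt_mul_of_pos_left ?_ hq1
                exact Nat.pow_lt_pow_left hpq (by norm_num)
              _ = q ^ 3 := by ring
              _ ≤ q ^ 6 := Nat.pow_le_pow_right hq1 (by norm_num)
    have h2' : ClsLE (p ^ 2) V (C + 5 + 2 ^ u) := by
      intro c'
      refine (hcls 2 c').trans ?_
      have h1 : (C + 4 + 2 ^ u) * p ^ 8 / (q ^ 6 * p ^ 2) ≤ C + 4 + 2 ^ u := by
        apply Nat.div_le_of_le_mul
        have h2 : p ^ 6 ≤ q ^ 6 := Nat.pow_le_pow_left hpq.le 6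
        calc (C + 4 + 2 ^ u) * p ^ 8 = p ^ 6 * (p ^ 2 * (C + 4 + 2 ^ u)) := by ring
          _ ≤ q ^ 6 * (p ^ 2 * (C + 4 + 2 ^ u)) := Nat.mul_le_mul_right _ h2
          _ = q ^ 6 * p ^ 2 * (C + 4 + 2 ^ u) := by ring
      omega
    have h4' : ClsLE (p ^ 4) V (C + 5 + 2 ^ u) := cls_dvd (pow_dvd_pow p (by norm_num)) h2'
    -- projections
    set V' : Finset ℕ := proj (p ^ 8) ((C + 4) * p ^ 8) B V with hV'
    have g6 : ClsLE (p ^ 6) V' (C + 5) := by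
      have := cls_proj (J := C + 4) hm0 (B := B) (pow_dvd_pow p (by norm_num : 6 ≤ 8)) h6
      rwa [mul_one] at this
    have g4 : ClsLE (p ^ 4) V' ((C + 5) * (C + 5 + 2 ^ u)) :=
      cls_proj (J := C + 4) hm0 (B := B) (pow_dvd_pow p (by norm_num : 4 ≤ 8)) h4'
    have g2 : ClsLE (p ^ 2) V' ((C + 5) * (C + 5 + 2 ^ u)) :=
      cls_proj (J := C + 4) hm0 (B := B) (pow_dvd_pow p (by norm_num : 2 ≤ 8)) h2'
    have hmomW : (wRFS (p ^ 8) B (block p hp.pos D)).mom lam V ≤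
        (block p hp.pos D).mom lam V' :=
      mom_wRFS hlam (fun ω s hs => (hrange ω s hs).2) h8
    rw [hcong]
    refine hmomW.trans ?_
    set Λ := Real.exp (lam * ((C + 5 : ℕ) : ℝ)) with hΛ
    have hΛ0 : 0 < Λ := Real.exp_pos _
    have hMh : M * ((C + 5) * (C + 5 + 2 ^ u)) ≤ 2 ^ (L + u) := by
      have e1 : C + 5 + 2 ^ u ≤ 2 * (C + 5) * 2 ^ u := by nlinarith
      calc M * ((C + 5) * (C + 5 + 2 ^ u)) ≤ M * ((C + 5) * (2 * (C + 5) * 2 ^ u)) :=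
            Nat.mul_le_mul_left _ (Nat.mul_le_mul_left _ e1)
        _ = M * ((C + 5) * (2 * (C + 5))) * 2 ^ u := by ring
        _ ≤ 2 ^ L * 2 ^ u := Nat.mul_le_mul_right _ hL
        _ = 2 ^ (L + u) := (pow_add _ _ _).symm
    have hcond : KM * Λ * (((C + 5) * (C + 5 + 2 ^ u) : ℕ) : ℝ) ≤ p := by
      have h1 : (KM * Λ * (((C + 5) * (C + 5 + 2 ^ u) : ℕ) : ℝ)) ^ 4 ≤ (p : ℝ) ^ 4 := by
        calc (KM * Λ * (((C + 5) * (C + 5 + 2 ^ u) : ℕ) : ℝ)) ^ 4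
            = (KM * (((C + 5) * (C + 5 + 2 ^ u) : ℕ) : ℝ)) ^ 4 * Λ ^ 4 := by ring
          _ ≤ ((M : ℝ) * (((C + 5) * (C + 5 + 2 ^ u) : ℕ) : ℝ)) ^ 4 * Λ ^ 4 := by
              have : KM * (((C + 5) * (C + 5 + 2 ^ u) : ℕ) : ℝ) ≤
                  (M : ℝ) * (((C + 5) * (C + 5 + 2 ^ u) : ℕ) : ℝ) :=
                mul_le_mul_of_nonneg_right hMM (Nat.cast_nonneg _)
              have h0 : 0 ≤ KM * (((C + 5) * (C + 5 + 2 ^ u) : ℕ) : ℝ) :=
                mul_nonneg hKM.le (Nat.cast_nonneg _)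
              exact mul_le_mul_of_nonneg_right (pow_le_pow_left₀ h0 this 4) (by positivity)
          _ ≤ ((2 : ℝ) ^ (L + u)) ^ 4 * 2 ^ k := by
              rw [hl]
              have h2 : ((M : ℝ) * (((C + 5) * (C + 5 + 2 ^ u) : ℕ) : ℝ)) ≤ 2 ^ (L + u) := by
                exact_mod_cast hMh
              exact mul_le_mul_of_nonneg_right
                (pow_le_pow_left₀ (mul_nonneg (Nat.cast_nonneg _) (Nat.cast_nonneg _)) h2 4)
                (by positivity)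
          _ = (2 : ℝ) ^ (4 * (L + u) + k) := by
              rw [← pow_mul, ← pow_add, mul_comm (L + u) 4]
          _ ≤ (2 : ℝ) ^ (4 * κ) := pow_le_pow_right₀ (by norm_num) (by omega)
          _ = ((2 : ℝ) ^ κ) ^ 4 := by rw [← pow_mul, mul_comm]
          _ ≤ (p : ℝ) ^ 4 := by
              refine pow_le_pow_left₀ (by positivity) ?_ 4
              exact_mod_cast hlo.le
      exact le_of_pow_le_pow_left₀ (by norm_num) (by positivity) h1
    refine (hM p hp.pos D hD lam hlam _ _ _ _ g6 g4 g2 hcond).trans ?_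
    refine Real.exp_le_exp.2 ?_
    have hp0 : (0 : ℝ) < p := by exact_mod_cast hp.pos
    have hkp : k ≤ p := by
      have e1 : k ≤ 2 * κ := by omega
      have e2 : 2 * κ ≤ 2 ^ κ := by
        obtain ⟨κ', rfl⟩ : ∃ κ', κ = κ' + 1 := ⟨κ - 1, by omega⟩
        have := Nat.lt_two_pow_self (n := κ')
        have e3 : 2 ^ (κ' + 1) = 2 * 2 ^ κ' := by ring
        omega
      omega
    have hkp' : (k : ℝ) ≤ p := by exact_mod_cast hkp
    rw [div_le_div_iff₀ (by positivity) hk0]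
    calc KM * Real.exp (lam * ((C + 5 : ℕ) : ℝ)) * (((C + 5) * (C + 5 + 2 ^ u) : ℕ) : ℝ) * (k : ℝ)
        ≤ p * p := mul_le_mul hcond hkp' hk0.le hp0.le
      _ = 1 * (p : ℝ) ^ 2 := by ring

/-- a sparse system of wide blocks -/
structure WSys (C : ℕ) where
  p : ℕ → ℕ
  D : ℕ → Finset ℕ
  B : ℕ → Finset ℕ
  κ : ℕ → ℕ
  u : ℕ → ℕ
  γ : ℕ → ℕ
  prime : ∀ i, (p i).Prime
  lo : ∀ i, 2 ^ κ i < p i
  hi : ∀ i, p i ≤ 2 ^ (κ i + 1)
  base : ∀ i, IsBase C (p i) (D i)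
  Blt : ∀ i, ∀ b ∈ B i, b < 2 ^ u i
  gap : ∀ i, ∀ j < i, 8 * κ j + u j + 8 * γ i ≤ 8 * κ i
  Bcard : ∀ i, ∀ j < i, (B j).card ^ 2 ≤ 2 ^ (u j + 2 * γ i)
  ule : ∀ i, 32 * u i ≤ κ i
  γle : ∀ i, 32 * γ i ≤ κ i
  idx : ∀ i, i ≤ κ i
  iγ : ∀ i, i * (κ i + C + 5) ≤ 2 ^ γ i
  γC : ∀ i, C + 8 ≤ γ i

/-- the blocks -/
def WSys.X {C : ℕ} (s : WSys C) (i : ℕ) : RFS := block (s.p i) (s.prime i).pos (s.D i)

/-- the wide blocks -/
def WSys.W {C : ℕ} (s : WSys C) (i : ℕ) : RFS := wRFS ((s.p i) ^ 8) (s.B i) (s.X i)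

theorem WSys.κlt {C : ℕ} (s : WSys C) {i j : ℕ} (h : j < i) : s.κ j + s.γ i ≤ s.κ i := by
  have := s.gap i j h
  omega

theorem WSys.plt {C : ℕ} (s : WSys C) {i j : ℕ} (h : j < i) : s.p j < s.p i := by
  have h1 := s.κlt h
  have h2 := s.γC i
  calc s.p j ≤ 2 ^ (s.κ j + 1) := s.hi j
    _ ≤ 2 ^ s.κ i := Nat.pow_le_pow_right (by norm_num) (by omega)
    _ < s.p i := s.lo i

theorem WSys.Cκ {C : ℕ} (s : WSys C) (i : ℕ) : C + 8 ≤ s.κ i := by
  have h1 := s.γC i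
  have h2 := s.γle i
  omega

theorem WSys.Cp {C : ℕ} (s : WSys C) (i : ℕ) : C + 8 ≤ s.p i := by
  have h1 := s.Cκ i
  have h2 := s.lo i
  have h3 : s.κ i < 2 ^ s.κ i := Nat.lt_two_pow_self
  omega

/-- the elements of a wide block -/
theorem WSys.range {C : ℕ} (s : WSys C) (hR : BlockRange C) (j : ℕ) (ω : (s.X j).Ω) :
    ∀ v ∈ (s.W j).S ω, (s.p j) ^ 8 ≤ v ∧ v < (C + 4 + 2 ^ s.u j) * (s.p j) ^ 8 := by
  intro v hv
  obtain ⟨b, hb, t, ht, rfl⟩ := mem_wd.1 hv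
  have h1 := (hR (s.p j) (s.prime j).pos (by have := s.Cp j; omega) (by have := s.Cp j; omega)
    (s.D j) (s.base j) ω).1 t ht
  have h2 : (s.p j) ^ 8 * b ≤ (s.p j) ^ 8 * 2 ^ s.u j := Nat.mul_le_mul_left _ (s.Blt j b hb).le
  have h3 : (C + 4 + 2 ^ s.u j) * (s.p j) ^ 8 = (C + 4) * (s.p j) ^ 8 + (s.p j) ^ 8 * 2 ^ s.u j := by
    ring
  omega

/-- the lower wide blocks are far below the next block -/
theorem WSys.below {C : ℕ} (s : WSys C) {i j : ℕ} (h : j < i) :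
    (C + 4 + 2 ^ s.u j) * (s.p j) ^ 8 ≤ 2 ^ (8 * s.κ i) := by
  have h1 : C + 4 + 2 ^ s.u j ≤ 2 ^ (C + 5 + s.u j) := by
    have e1 : C + 4 < 2 ^ (C + 4) := Nat.lt_two_pow_self
    have e2 : 2 ^ (C + 5 + s.u j) = 2 ^ (C + 4) * 2 ^ s.u j + 2 ^ (C + 4) * 2 ^ s.u j := by ring
    have e3 : 1 ≤ 2 ^ s.u j := Nat.one_le_two_pow
    have e4 : 2 ^ (C + 4) * 1 ≤ 2 ^ (C + 4) * 2 ^ s.u j := Nat.mul_le_mul_left _ e3
    have e5 : 1 * 2 ^ s.u j ≤ 2 ^ (C + 4) * 2 ^ s.u j :=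
      Nat.mul_le_mul_right _ Nat.one_le_two_pow
    omega
  have h2 : (s.p j) ^ 8 ≤ 2 ^ (8 * s.κ j + 8) := by
    calc (s.p j) ^ 8 ≤ (2 ^ (s.κ j + 1)) ^ 8 := Nat.pow_le_pow_left (s.hi j) 8
      _ = 2 ^ (8 * s.κ j + 8) := by rw [← pow_mul]; ring_nf
  calc (C + 4 + 2 ^ s.u j) * (s.p j) ^ 8 ≤ 2 ^ (C + 5 + s.u j) * 2 ^ (8 * s.κ j + 8) :=
        Nat.mul_le_mul h1 h2
    _ = 2 ^ (C + 13 + s.u j + 8 * s.κ j) := by rw [← pow_add]; congr 1; ring
    _ ≤ 2 ^ (8 * s.κ i) := by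
        refine Nat.pow_le_pow_right (by norm_num) ?_
        have h3 := s.gap i j h
        have h4 := s.γC i
        omega

/-- the union of the lower wide blocks has boundedly many elements in each class modulo `p ^ 6` -/
theorem spr_wide (C : ℕ) (hM : BlockMom C) (hR : BlockRange C) :
    ∃ g K0 : ℕ, ∀ (s : WSys C), (∀ i, K0 ≤ s.κ i) → ∀ i : ℕ,
    (pre s.W i).Pr (fun x => ¬ ClsLE ((s.p i) ^ 6) ((pre s.W i).S x) g) ≤
      1 / 2 ^ (4 * s.κ i + 3) := by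
  obtain ⟨KM, hKM, hM⟩ := hM
  obtain ⟨M, hMM⟩ := exists_nat_ge KM
  refine ⟨64 * (C + 5) + 256 * (C + 4) + 2, 8 * (M * ((C + 5) * (2 * (C + 5)))) + C + 8, ?_⟩
  intro s hK i
  obtain ⟨k, hk⟩ : ∃ k, k = s.κ i := ⟨_, rfl⟩
  have hKi := hK i
  have hqlo : 2 ^ k < s.p i := by rw [hk]; exact s.lo i
  have hqhi : s.p i ≤ 2 ^ (k + 1) := by rw [hk]; exact s.hi i
  have hqp := s.prime i
  obtain ⟨q, hq⟩ : ∃ q, q = s.p i := ⟨_, rfl⟩
  rw [← hk] at hKi ⊢
  have hpq : ∀ j < i, s.p j < q := by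
    intro j hj
    rw [hq]
    exact s.plt hj
  rw [← hq] at hqlo hqhi hqp ⊢
  have hk0 : (0 : ℝ) < k := by
    have : 0 < k := by omega
    exact_mod_cast this
  have hlog : 0 < Real.log 2 := Real.log_pos (by norm_num)
  obtain ⟨lam, hlamdef⟩ : ∃ lam : ℝ, lam = k * Real.log 2 / (4 * ((C + 5 : ℕ) : ℝ)) := ⟨_, rfl⟩
  have hC5 : (0 : ℝ) < ((C + 5 : ℕ) : ℝ) := by positivity
  have hlam : 0 ≤ lam := by rw [hlamdef]; positivity
  have hl : Real.exp (lam * ((C + 5 : ℕ) : ℝ)) ^ 4 = 2 ^ k := by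
    rw [← Real.exp_nat_mul, hlamdef]
    have : ((4 : ℕ) : ℝ) * (k * Real.log 2 / (4 * ((C + 5 : ℕ) : ℝ)) * ((C + 5 : ℕ) : ℝ)) =
        k * Real.log 2 := by
      field_simp
      norm_num
    rw [this, Real.exp_nat_mul, Real.exp_log (by norm_num)]
  have hik : i ≤ k := by rw [hk]; exact s.idx i
  -- moment of the prefix
  have hmom : ∀ c, (pre s.W i).mom lam (Vc C q c) ≤ Real.exp 1 := by
    intro c
    refine (mom_pre s.W hlam _ i).trans ?_
    have h1 : ∏ j ∈ Finset.range i, (s.W j).mom lam (Vc C q c) ≤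
        ∏ j ∈ Finset.range i, Real.exp (1 / (k : ℝ)) := by
      refine prod_le_prod (fun j _ => mom_nonneg _ _ _) (fun j hj => ?_)
      rw [Finset.mem_range] at hj
      exact mom_wblock hKM hM hR (L := M * ((C + 5) * (2 * (C + 5)))) hMM Nat.lt_two_pow_self.le
        (by omega) (by omega) (s.prime j) hqp (hpq j hj) (s.Cp j) (s.lo j) (s.hi j) hqlo
        (s.ule j) (by have := s.κlt hj; omega) (s.D j) (s.base j) (s.B j) (s.Blt j) hlam hl c
    refine h1.trans ?_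
    rw [prod_const, card_range, ← Real.exp_nat_mul]
    refine Real.exp_le_exp.2 ?_
    rw [mul_one_div, div_le_one hk0]
    exact_mod_cast hik
  -- union bound
  have hun : (pre s.W i).Pr (fun x => ¬ ClsLE (q ^ 6) ((pre s.W i).S x)
      (64 * (C + 5) + 256 * (C + 4) + 2)) ≤
      ∑ c ∈ Finset.range (q ^ 6), Real.exp (-(lam * ((64 * (C + 5) : ℕ) : ℝ))) * Real.exp 1 := by
    refine (Pr_mono (pre s.W i) (B := fun x => ∃ c ∈ Finset.range (q ^ 6),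
      ((64 * (C + 5) : ℕ) : ℝ) ≤ ((((pre s.W i).S x) ∩ Vc C q c).card : ℝ)) (fun x h => ?_)).trans
      ((Pr_exists_le _ _ _).trans (sum_le_sum fun c _ => ?_))
    · unfold ClsLE at h
      push Not at h
      obtain ⟨c, hc⟩ := h
      have hq6 : 0 < q ^ 6 := pow_pos hqp.pos 6
      have hcq : c < q ^ 6 := by
        by_contra hcc
        have : ((pre s.W i).S x).filter (fun v => v % q ^ 6 = c) = ∅ := by
          rw [Finset.filter_eq_empty_iff]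
          intro v _ hv
          have := Nat.mod_lt v hq6
          omega
        rw [this] at hc
        simp at hc
      refine ⟨c, Finset.mem_range.2 hcq, ?_⟩
      have hsub : ((pre s.W i).S x).filter (fun v => v % q ^ 6 = c) ⊆
          (((pre s.W i).S x) ∩ Vc C q c) ∪
          ((pre s.W i).S x).filter (fun v => v % q ^ 6 = c ∧ v < 256 * (C + 4) * q ^ 6) := by
        intro v hv
        rw [mem_filter] at hv
        rw [mem_union, mem_inter, mem_filter]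
        by_cases hv2 : v < 256 * (C + 4) * q ^ 6
        · exact Or.inr ⟨hv.1, hv.2, hv2⟩
        · refine Or.inl ⟨hv.1, mem_filter.2 ⟨Finset.mem_range.2 ?_, hv.2, by omega⟩⟩
          obtain ⟨j, hj, w, hw⟩ := mem_pre s.W i x hv.1
          have h1 := (s.range hR j w v hw).2
          have h2 := s.below hj
          have h3 : 2 ^ (8 * s.κ i) ≤ q ^ 8 := by
            rw [← hk]
            calc 2 ^ (8 * k) = (2 ^ k) ^ 8 := by rw [← pow_mul, mul_comm]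
              _ ≤ q ^ 8 := Nat.pow_le_pow_left hqlo.le 8
          have h4 : 1 * q ^ 8 ≤ (C + 4) * q ^ 8 := Nat.mul_le_mul_right _ (by omega)
          omega
      have h1 := (card_le_card hsub).trans (card_union_le _ _)
      have h2 : (((pre s.W i).S x).filter
          (fun v => v % q ^ 6 = c ∧ v < 256 * (C + 4) * q ^ 6)).card ≤ 256 * (C + 4) + 1 := by
        refine (card_le_of_modEq (N := 256 * (C + 4) * q ^ 6) (M := q ^ 6) ?_ ?_).trans ?_
        · intro v hv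
          exact (mem_filter.1 hv).2.2
        · intro v hv w hw
          rw [(mem_filter.1 hv).2.1, (mem_filter.1 hw).2.1]
        · rw [Nat.mul_div_cancel _ hq6]
      exact_mod_cast (by omega : 64 * (C + 5) ≤ (((pre s.W i).S x) ∩ Vc C q c).card)
    · refine (Pr_hits_le (pre s.W i) hlam (Vc C q c) _).trans ?_
      exact mul_le_mul_of_nonneg_left (hmom c) (Real.exp_pos _).le
  refine hun.trans ?_
  rw [sum_const, nsmul_eq_mul, card_range]
  have he : Real.exp (lam * ((64 * (C + 5) : ℕ) : ℝ)) = 2 ^ (16 * k) := by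
    have e1 : lam * ((64 * (C + 5) : ℕ) : ℝ) =
        ((64 : ℕ) : ℝ) * (lam * ((C + 5 : ℕ) : ℝ)) := by
      push_cast
      ring
    rw [e1, Real.exp_nat_mul]
    calc Real.exp (lam * ((C + 5 : ℕ) : ℝ)) ^ 64
        = (Real.exp (lam * ((C + 5 : ℕ) : ℝ)) ^ 4) ^ 16 := by rw [← pow_mul]
      _ = 2 ^ (16 * k) := by rw [hl, ← pow_mul, mul_comm]
  have he1 : Real.exp 1 ≤ 4 := by
    have := Real.exp_one_lt_d9
    linarith
  have hnat : q ^ 6 * 4 * 2 ^ (4 * k + 3) ≤ 2 ^ (16 * k) := by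
    calc q ^ 6 * 4 * 2 ^ (4 * k + 3) ≤ (2 ^ (k + 1)) ^ 6 * 4 * 2 ^ (4 * k + 3) :=
          Nat.mul_le_mul_right _ (Nat.mul_le_mul_right _ (Nat.pow_le_pow_left hqhi 6))
      _ = 2 ^ (10 * k + 11) := by
          rw [← pow_mul, show (4 : ℕ) = 2 ^ 2 by norm_num, ← pow_add, ← pow_add]
          congr 1
          ring
      _ ≤ 2 ^ (16 * k) := Nat.pow_le_pow_right (by norm_num) (by omega)
  have hreal : ((q ^ 6 : ℕ) : ℝ) * 4 * 2 ^ (4 * k + 3) ≤ 2 ^ (16 * k) := by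
    exact_mod_cast hnat
  rw [Real.exp_neg, he]
  have h16 : (0 : ℝ) < 2 ^ (16 * k) := by positivity
  have h43 : (0 : ℝ) < 2 ^ (4 * k + 3) := by positivity
  rw [le_div_iff₀ h43]
  calc ((q ^ 6 : ℕ) : ℝ) * ((2 ^ (16 * k))⁻¹ * Real.exp 1) * 2 ^ (4 * k + 3)
      ≤ ((q ^ 6 : ℕ) : ℝ) * ((2 ^ (16 * k))⁻¹ * 4) * 2 ^ (4 * k + 3) := by gcongr
    _ = (((q ^ 6 : ℕ) : ℝ) * 4 * 2 ^ (4 * k + 3)) * (2 ^ (16 * k))⁻¹ := by ring
    _ ≤ 2 ^ (16 * k) * (2 ^ (16 * k))⁻¹ := by gcongr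
    _ = 1 := mul_inv_cancel₀ h16.ne'

end Pool.Agent.Helper667_AS
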