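import Pool.Agent.Helper667_AS.Prep

/-!
# The induction step
-/

set_option autoImplicit false

namespace Pool.Agent.Helper667_AS

open Finset Pool.Agent.H125R2.ET

open Classical in
/-- the elements of `B` below `2 ^ u` -/
noncomputable def cut (B : Set ℕ) (u : ℕ) : Finset ℕ := (range (2 ^ u)).filter (fun b => b ∈ B)

theorem mem_cut {B : Set ℕ} {u b : ℕ} : b ∈ cut B u ↔ b < 2 ^ u ∧ b ∈ B := by
  classical
  unfold cut
  rw [mem_filter, mem_range]

/-- the representations by a truncated good set -/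
theorem cut_rep {q f c : ℕ} (hf : 1 ≤ f) {B : Set ℕ} (h : Good q f B c) (u n : ℕ) :
    (repF (cut B u) (cut B u) n) ^ (f + q) ≤ c * (u + 2) ^ (q + 1) := by
  by_cases hn : n < 2 ^ (u + 1)
  · have h1 : repF (cut B u) (cut B u) n ≤ rA B n := repF_le_rA (fun b hb => (mem_cut.1 hb).2) n
    have h2 : Nat.log 2 n ≤ u := by
      rcases Nat.eq_zero_or_pos n with h0 | h0
      · rw [h0]; simp
      · exact Nat.lt_succ_iff.1 ((Nat.log_lt_iff_lt_pow (by norm_num) (by omega)).2 hn)
    calc (repF (cut B u) (cut B u) n) ^ (f + q) ≤ (rA B n) ^ (f + q) := Nat.pow_le_pow_left h1 _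
      _ ≤ c * (Nat.log 2 n + 1) ^ (q + 1) := h.rep n
      _ ≤ c * (u + 2) ^ (q + 1) := Nat.mul_le_mul_left _ (Nat.pow_le_pow_left (by omega) _)
  · have h0 : repF (cut B u) (cut B u) n = 0 := by
      unfold repF
      rw [card_eq_zero, filter_eq_empty_iff]
      rintro x hx hxn
      rw [mem_product, mem_cut, mem_cut] at hx
      have : 2 ^ (u + 1) = 2 ^ u + 2 ^ u := by ring
      omega
    rw [h0, zero_pow (by omega)]
    exact Nat.zero_le _

/-- a truncated good set is thin -/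
theorem cut_card {q f c : ℕ} (hf : 1 ≤ f) {B : Set ℕ} (h : Good q f B c) (u : ℕ) :
    (cut B u).card ^ 2 ≤ 2 ^ (u + 1) * (c * (u + 2) ^ (q + 1)) := by
  classical
  have hmap : ∀ x ∈ (cut B u) ×ˢ (cut B u), x.1 + x.2 ∈ range (2 ^ (u + 1)) := by
    intro x hx
    rw [mem_product, mem_cut, mem_cut] at hx
    rw [mem_range]
    have : 2 ^ (u + 1) = 2 ^ u + 2 ^ u := by ring
    omega
  calc (cut B u).card ^ 2 = ((cut B u) ×ˢ (cut B u)).card := by rw [card_product, sq]
    _ = ∑ n ∈ range (2 ^ (u + 1)),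
        (((cut B u) ×ˢ (cut B u)).filter (fun x => x.1 + x.2 = n)).card :=
        card_eq_sum_card_fiberwise hmap
    _ ≤ ∑ _n ∈ range (2 ^ (u + 1)), c * (u + 2) ^ (q + 1) := by
        refine sum_le_sum (fun n _ => ?_)
        exact (Nat.le_self_pow (by omega) _).trans (cut_rep hf h u n)
    _ = 2 ^ (u + 1) * (c * (u + 2) ^ (q + 1)) := by rw [sum_const, card_range, smul_eq_mul]

theorem bc_mono (A : Set ℕ) {K L : ℕ} (h : K ≤ L) : bc A K ≤ bc A L := by
  classical
  unfold bc
  exact card_le_card (filter_subset_filter _ (range_subset_range.2 h))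

theorem bc_le (A : Set ℕ) (K : ℕ) : bc A K ≤ K := by
  classical
  unfold bc
  exact (card_filter_le _ _).trans (card_range K).le

/-- the bad scales of one window -/
theorem bc_window (A B : Set ℕ) {κ κ' u m : ℕ} (hm1 : 2 ^ (8 * κ) ≤ m) (hm2 : m ≤ 2 ^ (8 * κ + 8))
    (hA : ∀ n, 11 * m ≤ n → (∃ b ∈ cut B u, ∃ b' ∈ cut B u, b + b' = n / m - 11) →
        ∃ a ∈ A, ∃ b ∈ A, a + b = n) :
    bc A (8 * κ') ≤ bc A (8 * κ) + (13 + (8 * κ' - (8 * κ + u)) + 10 * bc B u) := by
  classical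
  have hm0 : 0 < m := lt_of_lt_of_le (by positivity) hm1
  -- a scale in the good part of the window
  have key : ∀ l, 13 ≤ l → l < u → (∀ t < 10, ¬ Bad B (l - t)) → ¬ Bad A (8 * κ + l) := by
    rintro l hl1 hl2 hB ⟨n, hn1, hn2, hn3⟩
    apply hn3
    have f1 : 2 ^ (l - 8) ≤ n / m := by
      rw [Nat.le_div_iff_mul_le hm0]
      calc 2 ^ (l - 8) * m ≤ 2 ^ (l - 8) * 2 ^ (8 * κ + 8) := Nat.mul_le_mul_left _ hm2
        _ = 2 ^ (8 * κ + l) := by rw [← pow_add]; congr 1; omega
        _ ≤ n := hn1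
    have f2 : n / m < 2 ^ (l + 1) := by
      rw [Nat.div_lt_iff_lt_mul hm0]
      calc n < 2 ^ (8 * κ + l + 1) := hn2
        _ = 2 ^ (l + 1) * 2 ^ (8 * κ) := by rw [← pow_add]; congr 1; omega
        _ ≤ 2 ^ (l + 1) * m := Nat.mul_le_mul_left _ hm1
    have f3 : 2 ^ (l - 8) = 2 ^ (l - 9) + 2 ^ (l - 9) := by
      have : l - 8 = (l - 9) + 1 := by omega
      rw [this]; ring
    have f4 : 16 ≤ 2 ^ (l - 9) := by
      calc 16 = 2 ^ 4 := by norm_num
        _ ≤ 2 ^ (l - 9) := Nat.pow_le_pow_right (by norm_num) (by omega)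
    obtain ⟨β, hβ⟩ : ∃ β, β = n / m - 11 := ⟨_, rfl⟩
    have f5 : 2 ^ (l - 9) ≤ β := by omega
    have f6 : β < 2 ^ (l + 1) := by omega
    have f7 : 11 * m ≤ n := by
      calc 11 * m ≤ n / m * m := Nat.mul_le_mul_right _ (by omega)
        _ ≤ n := Nat.div_mul_le_self _ _
    have hβ0 : β ≠ 0 := by omega
    obtain ⟨t', ht'⟩ : ∃ t', t' = Nat.log 2 β := ⟨_, rfl⟩
    have g1 : 2 ^ t' ≤ β := by rw [ht']; exact Nat.pow_log_le_self 2 hβ0
    have g2 : β < 2 ^ (t' + 1) := by rw [ht']; exact Nat.lt_pow_succ_log_self (by norm_num) β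
    have g3 : t' < l + 1 := by
      rw [ht']; exact (Nat.log_lt_iff_lt_pow (by norm_num) hβ0).2 f6
    have g4 : l - 9 < t' + 1 := (Nat.pow_lt_pow_iff_right (by norm_num)).1 (lt_of_le_of_lt f5 g2)
    have g5 := hB (l - t') (by omega)
    have g6 : l - (l - t') = t' := by omega
    rw [g6] at g5
    unfold Bad at g5
    push Not at g5
    obtain ⟨b, hb, b', hb', hbb⟩ := g5 β g1 g2
    have g7 : 2 ^ (l + 1) ≤ 2 ^ u := Nat.pow_le_pow_right (by norm_num) (by omega)
    exact hA n f7 ⟨b, mem_cut.2 ⟨by omega, hb⟩, b', mem_cut.2 ⟨by omega, hb'⟩, by omega⟩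
  have hsub : (range (8 * κ')).filter (fun k => Bad A k) ⊆
      (range (8 * κ)).filter (fun k => Bad A k) ∪
      ((Ico (8 * κ) (8 * κ + 13) ∪ Ico (8 * κ + u) (8 * κ')) ∪
        (range 10).biUnion (fun t => ((range u).filter (fun k => Bad B k)).image
          (fun k => 8 * κ + (k + t)))) := by
    intro k hk
    rw [mem_filter, mem_range] at hk
    rw [mem_union, mem_union, mem_union, mem_Ico, mem_Ico, mem_filter, mem_range]
    by_cases h1 : k < 8 * κ
    · exact Or.inl ⟨h1, hk.2⟩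
    · obtain ⟨l, rfl⟩ := Nat.exists_eq_add_of_le (not_lt.1 h1)
      by_cases h2 : l < 13
      · exact Or.inr (Or.inl (Or.inl ⟨by omega, by omega⟩))
      · by_cases h3 : u ≤ l
        · exact Or.inr (Or.inl (Or.inr ⟨by omega, hk.1⟩))
        · refine Or.inr (Or.inr ?_)
          have h4 : ∃ t < 10, Bad B (l - t) := by
            by_contra hc
            push Not at hc
            exact key l (by omega) (by omega) hc hk.2
          obtain ⟨t, ht, hb⟩ := h4
          rw [mem_biUnion]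
          refine ⟨t, mem_range.2 ht, mem_image.2 ⟨l - t, ?_, by omega⟩⟩
          rw [mem_filter, mem_range]
          exact ⟨by omega, hb⟩
  have hc1 : ((range 10).biUnion (fun t => ((range u).filter (fun k => Bad B k)).image
          (fun k => 8 * κ + (k + t)))).card ≤ 10 * bc B u := by
    refine (card_biUnion_le_card_mul _ _ (bc B u) (fun t _ => ?_)).trans ?_
    · unfold bc
      exact card_image_le
    · rw [card_range]
  have hc2 : (Ico (8 * κ) (8 * κ + 13)).card = 13 := by simp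
  have hc3 : (Ico (8 * κ + u) (8 * κ')).card = 8 * κ' - (8 * κ + u) := by simp
  have e1 := card_le_card hsub
  have e2 := card_union_le ((range (8 * κ)).filter (fun k => Bad A k))
    ((Ico (8 * κ) (8 * κ + 13) ∪ Ico (8 * κ + u) (8 * κ')) ∪
        (range 10).biUnion (fun t => ((range u).filter (fun k => Bad B k)).image
          (fun k => 8 * κ + (k + t))))
  have e3 := card_union_le (Ico (8 * κ) (8 * κ + 13) ∪ Ico (8 * κ + u) (8 * κ'))
    ((range 10).biUnion (fun t => ((range u).filter (fun k => Bad B k)).image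
          (fun k => 8 * κ + (k + t))))
  have e4 := card_union_le (Ico (8 * κ) (8 * κ + 13)) (Ico (8 * κ + u) (8 * κ'))
  unfold bc
  unfold bc at hc1
  omega

end Pool.Agent.Helper667_AS
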