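import Pool.Agent.Helper667_AS.Step

/-!
# The induction step, and the theorem
-/

set_option autoImplicit false

namespace Pool.Agent.Helper667_AS

open Finset Pool.Agent.H125R2.ET

theorem r1 (c cu x q d : ℕ) : c * ((cu + 2) * x ^ d) ^ (q + 1) =
    c * (cu + 2) ^ (q + 1) * (x ^ (q + 1)) ^ d := by
  rw [mul_pow, ← pow_mul, ← pow_mul, mul_comm d (q + 1), mul_assoc]

theorem r2 (k x q d : ℕ) : (k * x ^ (q + 1)) ^ d = k ^ d * (x ^ d) ^ (q + 1) := by ring

theorem r3 (c cu x d f : ℕ) : c * (cu * x ^ d) ^ f = c * cu ^ f * (x ^ f) ^ d := by ring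

theorem r4 (c x f : ℕ) : (2 * x) * (c * (2 ^ f * x ^ f)) = c * 2 ^ (f + 1) * x ^ (f + 1) := by ring

theorem r5 (c x f d : ℕ) : (c * x ^ (f + 1)) ^ d = c ^ d * (x ^ d) ^ (f + 1) := by
  ring

theorem good_succ {q f : ℕ} (hf : 1 ≤ f) {B : Set ℕ} {c : ℕ} (hB : Good q f B c) :
    ∃ (A : Set ℕ) (c' : ℕ), Good q (f + 1) A c' := by
  obtain ⟨C, hC⟩ := base_exists
  have hM : BlockMom C := block_mom C
  have hR : BlockRange C := block_range C
  obtain ⟨C4, K0, hmain⟩ := wide_set C hM hR (reg_prob C hM hR)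
  obtain ⟨E, hE⟩ : ∃ E, E = (f + (q + 1)) * (q + 1) + (f + (q + 1)) + 2 := ⟨_, rfl⟩
  obtain ⟨N0, hN0⟩ := pow_le_two_pow E
  obtain ⟨cu, hcu⟩ : ∃ cu, cu = 8 * (f + q + 1) * 2 ^ (f + q) := ⟨_, rfl⟩
  obtain ⟨x0, hx0⟩ : ∃ x0, x0 = N0 + 32 * cu + C + 2 * c + K0 + 32 := ⟨_, rfl⟩
  -- facts for `x ≥ x0`
  have hself : ∀ x : ℕ, x ≤ x ^ f := fun x => Nat.le_self_pow (by omega) x
  have hself2 : ∀ x : ℕ, x ≤ x ^ (f + (q + 1)) := fun x => Nat.le_self_pow (by omega) x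
  have hw : ∀ x, x0 ≤ x → wdt q f x ≤ cu * x ^ (f + q) := by
    intro x hx
    rw [hcu]
    exact wdt_le (by omega)
  have hu : ∀ x, x0 ≤ x → 32 * wdt q f x ≤ x ^ (f + (q + 1)) := by
    intro x hx
    calc 32 * wdt q f x ≤ 32 * (cu * x ^ (f + q)) := Nat.mul_le_mul_left _ (hw x hx)
      _ = (32 * cu) * x ^ (f + q) := by ring
      _ ≤ x * x ^ (f + q) := Nat.mul_le_mul_right _ (by omega)
      _ = x ^ (f + (q + 1)) := by ring
  have hγ : ∀ x, x0 ≤ x → 32 * x ^ f ≤ x ^ (f + (q + 1)) := by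
    intro x hx
    have h1 : x ≤ x ^ (q + 1) := Nat.le_self_pow (by omega) x
    calc 32 * x ^ f ≤ x ^ (q + 1) * x ^ f := Nat.mul_le_mul_right _ (by omega)
      _ = x ^ (f + (q + 1)) := by ring
  have hpow : ∀ x, x0 ≤ x → x ^ E ≤ 2 ^ (x ^ f) := by
    intro x hx
    exact (hN0 x (by omega)).trans (Nat.pow_le_pow_right (by norm_num) (hself x))
  have hiγ : ∀ x, x0 ≤ x → x * (x ^ (f + (q + 1)) + C + 5) ≤ 2 ^ (x ^ f) := by
    intro x hx
    refine le_trans ?_ (hpow x hx)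
    have h1 := hself2 x
    calc x * (x ^ (f + (q + 1)) + C + 5) ≤ x * (2 * x ^ (f + (q + 1))) :=
          Nat.mul_le_mul_left _ (by omega)
      _ = 2 * (x * x ^ (f + (q + 1))) := by ring
      _ ≤ x * (x * x ^ (f + (q + 1))) := Nat.mul_le_mul_right _ (by omega)
      _ = x ^ ((f + (q + 1)) + 2) := by ring
      _ ≤ x ^ E := Nat.pow_le_pow_right (by omega) (by
          have := Nat.zero_le ((f + (q + 1)) * (q + 1))
          omega)
  have hcard : ∀ y x, x0 ≤ y → y ≤ x → 2 ^ (wdt q f y + 1) * (c * (wdt q f y + 2) ^ (q + 1)) ≤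
      2 ^ (wdt q f y + 2 * x ^ f) := by
    intro y x hy hyx
    have h1 : wdt q f y + 2 ≤ x ^ (f + (q + 1)) := by
      have h2 := hu y hy
      have h3 : y ^ (f + (q + 1)) ≤ x ^ (f + (q + 1)) := Nat.pow_le_pow_left hyx _
      have h4 := hself2 y
      omega
    have h5 : 2 * c ≤ x := by omega
    have h6 : (2 * c) * (wdt q f y + 2) ^ (q + 1) ≤ (2 ^ (x ^ f)) ^ 2 := by
      calc (2 * c) * (wdt q f y + 2) ^ (q + 1) ≤ x * (x ^ (f + (q + 1))) ^ (q + 1) :=
            Nat.mul_le_mul h5 (Nat.pow_le_pow_left h1 _)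
        _ = x ^ ((f + (q + 1)) * (q + 1) + 1) := by rw [← pow_mul, pow_succ']
        _ ≤ x ^ E := Nat.pow_le_pow_right (by omega) (by omega)
        _ ≤ 2 ^ (x ^ f) := hpow x (by omega)
        _ ≤ (2 ^ (x ^ f)) ^ 2 := Nat.le_self_pow (by norm_num) _
    calc 2 ^ (wdt q f y + 1) * (c * (wdt q f y + 2) ^ (q + 1))
        = 2 ^ wdt q f y * ((2 * c) * (wdt q f y + 2) ^ (q + 1)) := by rw [pow_succ 2]; ring
      _ ≤ 2 ^ wdt q f y * (2 ^ (x ^ f)) ^ 2 := Nat.mul_le_mul_left _ h6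
      _ = 2 ^ (wdt q f y + 2 * x ^ f) := by rw [← pow_mul, pow_add, mul_comm (x ^ f) 2]
  -- primes
  have h1 : ∀ i : ℕ, ∃ p : ℕ, p.Prime ∧ 2 ^ ((x0 + i) ^ (f + (q + 1))) < p ∧
      p ≤ 2 ^ ((x0 + i) ^ (f + (q + 1)) + 1) := by
    intro i
    obtain ⟨p, hp, h1, h2⟩ := Nat.exists_prime_lt_and_le_two_mul (2 ^ ((x0 + i) ^ (f + (q + 1))))
      (pow_ne_zero _ two_ne_zero)
    exact ⟨p, hp, h1, by rw [pow_succ 2]; omega⟩
  choose p hp hlo hhi using h1
  have h7 : ∀ i, 7 < p i := by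
    intro i
    have h2 := hself2 (x0 + i)
    have h3 : 2 ^ 3 ≤ 2 ^ ((x0 + i) ^ (f + (q + 1))) :=
      Nat.pow_le_pow_right (by norm_num) (by omega)
    have := hlo i
    omega
  have h2 : ∀ i, ∃ D : Finset ℕ, IsBase C (p i) D := fun i => hC (p i) (hp i) (h7 i)
  choose D hD using h2
  obtain ⟨s, hsB, hsκ, hsu, hsγ⟩ : ∃ s : WSys C, (∀ i, s.B i = cut B (wdt q f (x0 + i))) ∧
      (∀ i, s.κ i = (x0 + i) ^ (f + (q + 1))) ∧ (∀ i, s.u i = wdt q f (x0 + i)) ∧
      (∀ i, s.γ i = (x0 + i) ^ f) := by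
    refine ⟨⟨p, D, fun i => cut B (wdt q f (x0 + i)), fun i => (x0 + i) ^ (f + (q + 1)),
      fun i => wdt q f (x0 + i), fun i => (x0 + i) ^ f, hp, hlo, hhi, hD, ?_, ?_, ?_, ?_, ?_, ?_,
      ?_, ?_⟩, fun i => rfl, fun i => rfl, fun i => rfl, fun i => rfl⟩
    · intro i b hb
      exact (mem_cut.1 hb).1
    · intro i j hj
      have e1 := pow_mono_gap (y := x0 + j + 1) (x := x0 + i) f (q + 1) (by omega) (by omega)
      have e2 := wdt_eq q f (x0 + j)
      omega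
    · intro i j hj
      exact (cut_card hf hB _).trans (hcard _ _ (by omega) (by omega))
    · intro i
      exact hu _ (by omega)
    · intro i
      exact hγ _ (by omega)
    · intro i
      have e1 := hself2 (x0 + i)
      omega
    · intro i
      refine le_trans ?_ (hiγ (x0 + i) (by omega))
      exact Nat.mul_le_mul_right _ (by omega)
    · intro i
      have e1 := hself (x0 + i)
      omega
  obtain ⟨cr, hcr⟩ : ∃ cr, cr = c * (cu + 2) ^ (q + 1) + 1 := ⟨_, rfl⟩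
  have hx1 : ∀ i, 1 ≤ x0 + i := fun i => by omega
  obtain ⟨A, hA1, hA2⟩ := hmain s (fun i => by
      rw [hsκ i]
      have := hself2 (x0 + i)
      omega) (fun i => cr * (x0 + i) ^ (q + 1)) (by
    intro i n
    rw [hsB i]
    have e1 := cut_rep hf hB (wdt q f (x0 + i)) n
    refine (Nat.pow_le_pow_iff_left (show f + q ≠ 0 by omega)).1 (e1.trans ?_)
    have e2 : wdt q f (x0 + i) + 2 ≤ (cu + 2) * (x0 + i) ^ (f + q) := by
      have e3 := hw (x0 + i) (by omega)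
      have e4 : 1 ≤ (x0 + i) ^ (f + q) := Nat.one_le_pow _ _ (hx1 i)
      calc wdt q f (x0 + i) + 2 ≤ cu * (x0 + i) ^ (f + q) + 2 * (x0 + i) ^ (f + q) := by omega
        _ = (cu + 2) * (x0 + i) ^ (f + q) := by ring
    calc c * (wdt q f (x0 + i) + 2) ^ (q + 1) ≤ c * ((cu + 2) * (x0 + i) ^ (f + q)) ^ (q + 1) :=
          Nat.mul_le_mul_left _ (Nat.pow_le_pow_left e2 _)
      _ = c * (cu + 2) ^ (q + 1) * ((x0 + i) ^ (q + 1)) ^ (f + q) := r1 _ _ _ _ _
      _ ≤ cr ^ (f + q) * ((x0 + i) ^ (q + 1)) ^ (f + q) := by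
          refine Nat.mul_le_mul_right _ ?_
          calc c * (cu + 2) ^ (q + 1) ≤ cr := by omega
            _ ≤ cr ^ (f + q) := Nat.le_self_pow (by omega) _
      _ = (cr * (x0 + i) ^ (q + 1)) ^ (f + q) := (mul_pow _ _ _).symm)
  -- the constants
  obtain ⟨c5, hc5⟩ : ∃ c5, c5 = c * cu ^ f + 1 := ⟨_, rfl⟩
  obtain ⟨c6, hc6⟩ : ∃ c6, c6 = 13 + 8 * 2 ^ f + 10 * c5 := ⟨_, rfl⟩
  obtain ⟨c7, hc7⟩ : ∃ c7, c7 = 8 * x0 ^ (f + (q + 1)) + c6 * 2 ^ (f + 1) := ⟨_, rfl⟩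
  have hd : f + 1 + q = f + (q + 1) := by omega
  refine ⟨A, (C4 * (cr + 1)) ^ (f + (q + 1)) +
    ((8 * x0 ^ (f + (q + 1))) ^ (q + 1) + c7 ^ (f + (q + 1))), ?_, ?_⟩
  · -- representations
    intro n
    rw [hd]
    rcases hA1 n with h0 | ⟨i, hi1, hi2⟩
    · rw [h0, zero_pow (by omega)]
      exact Nat.zero_le _
    · rw [hsκ i] at hi1 hi2
      rw [hsγ i] at hi2
      have e1 : ((((x0 + i) ^ (f + (q + 1)) : ℕ) : ℝ)) / (((x0 + i) ^ f : ℕ) : ℝ) =
          (((x0 + i) ^ (q + 1) : ℕ) : ℝ) := by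
        have hpos : (0 : ℝ) < (((x0 + i) ^ f : ℕ) : ℝ) := by
          exact_mod_cast Nat.pow_pos (hx1 i)
        rw [div_eq_iff hpos.ne', pow_add]
        push_cast
        ring
      rw [e1] at hi2
      have e2 : rA A n ≤ C4 * (cr + 1) * (x0 + i) ^ (q + 1) := by
        have e3 : C4 * (cr + 1) * (x0 + i) ^ (q + 1) =
            C4 * (cr * (x0 + i) ^ (q + 1) + (x0 + i) ^ (q + 1)) := by ring
        rw [e3]
        exact_mod_cast hi2
      have e4 : (x0 + i) ^ (f + (q + 1)) ≤ Nat.log 2 n := by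
        have hn0 : n ≠ 0 := by
          have : 0 < 2 ^ (8 * (x0 + i) ^ (f + (q + 1))) := by positivity
          omega
        have := (Nat.le_log_iff_pow_le (by norm_num) hn0).2 hi1
        omega
      calc (rA A n) ^ (f + (q + 1)) ≤ (C4 * (cr + 1) * (x0 + i) ^ (q + 1)) ^ (f + (q + 1)) :=
            Nat.pow_le_pow_left e2 _
        _ = (C4 * (cr + 1)) ^ (f + (q + 1)) * ((x0 + i) ^ (f + (q + 1))) ^ (q + 1) := r2 _ _ _ _
        _ ≤ ((C4 * (cr + 1)) ^ (f + (q + 1)) +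
              ((8 * x0 ^ (f + (q + 1))) ^ (q + 1) + c7 ^ (f + (q + 1)))) *
            (Nat.log 2 n + 1) ^ (q + 1) :=
          Nat.mul_le_mul (Nat.le_add_right _ _) (Nat.pow_le_pow_left (by omega) _)
  · -- bad scales
    have hstep : ∀ i, bc A (8 * (x0 + (i + 1)) ^ (f + (q + 1))) ≤
        bc A (8 * (x0 + i) ^ (f + (q + 1))) + c6 * (x0 + i) ^ f := by
      intro i
      have hm1 : 2 ^ (8 * (x0 + i) ^ (f + (q + 1))) ≤ (s.p i) ^ 8 := by
        have := (s.lo i).le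
        rw [hsκ i] at this
        calc 2 ^ (8 * (x0 + i) ^ (f + (q + 1))) = (2 ^ ((x0 + i) ^ (f + (q + 1)))) ^ 8 := by
              rw [← pow_mul, mul_comm]
          _ ≤ (s.p i) ^ 8 := Nat.pow_le_pow_left this 8
      have hm2 : (s.p i) ^ 8 ≤ 2 ^ (8 * (x0 + i) ^ (f + (q + 1)) + 8) := by
        have := s.hi i
        rw [hsκ i] at this
        calc (s.p i) ^ 8 ≤ (2 ^ ((x0 + i) ^ (f + (q + 1)) + 1)) ^ 8 := Nat.pow_le_pow_left this 8
          _ = 2 ^ (8 * (x0 + i) ^ (f + (q + 1)) + 8) := by rw [← pow_mul]; congr 1; ring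
      have e1 := bc_window A B (κ' := (x0 + (i + 1)) ^ (f + (q + 1))) (u := wdt q f (x0 + i))
        hm1 hm2 (fun n hn h => hA2 i n hn (by rw [hsB i]; exact h))
      refine e1.trans (Nat.add_le_add_left ?_ _)
      have e2 := wdt_eq q f (x0 + i)
      have e3 : 8 * (x0 + (i + 1)) ^ (f + (q + 1)) -
          (8 * (x0 + i) ^ (f + (q + 1)) + wdt q f (x0 + i)) = 8 * (x0 + i + 1) ^ f := by
        have : x0 + (i + 1) = x0 + i + 1 := by omega
        rw [this]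
        omega
      rw [e3]
      have e4 : (x0 + i + 1) ^ f ≤ 2 ^ f * (x0 + i) ^ f := by
        rw [← mul_pow]
        exact Nat.pow_le_pow_left (by omega) f
      have e5 : bc B (wdt q f (x0 + i)) ≤ c5 * (x0 + i) ^ f := by
        refine (Nat.pow_le_pow_iff_left (show f + q ≠ 0 by omega)).1
          ((hB.bad (wdt q f (x0 + i))).trans ?_)
        have f1 := hw (x0 + i) (by omega)
        calc c * (wdt q f (x0 + i)) ^ f ≤ c * (cu * (x0 + i) ^ (f + q)) ^ f :=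
              Nat.mul_le_mul_left _ (Nat.pow_le_pow_left f1 f)
          _ = (c * cu ^ f) * ((x0 + i) ^ f) ^ (f + q) := r3 _ _ _ _ _
          _ ≤ c5 ^ (f + q) * ((x0 + i) ^ f) ^ (f + q) := by
              refine Nat.mul_le_mul_right _ ?_
              calc c * cu ^ f ≤ c5 := by omega
                _ ≤ c5 ^ (f + q) := Nat.le_self_pow (by omega) _
          _ = (c5 * (x0 + i) ^ f) ^ (f + q) := (mul_pow _ _ _).symm
      have e6 : 1 ≤ (x0 + i) ^ f := Nat.one_le_pow _ _ (hx1 i)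
      have e7 : c6 * (x0 + i) ^ f = 13 * (x0 + i) ^ f + 8 * (2 ^ f * (x0 + i) ^ f) +
          10 * (c5 * (x0 + i) ^ f) := by rw [hc6]; ring
      omega
    have hsum : ∀ i, bc A (8 * (x0 + i) ^ (f + (q + 1))) ≤
        8 * x0 ^ (f + (q + 1)) + i * (c6 * (x0 + i) ^ f) := by
      intro i
      induction i with
      | zero =>
        rw [Nat.zero_mul]
        exact bc_le _ _
      | succ i ih =>
        refine (hstep i).trans ?_
        have e1 : (x0 + i) ^ f ≤ (x0 + (i + 1)) ^ f := Nat.pow_le_pow_left (by omega) f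
        have e2 : c6 * (x0 + i) ^ f ≤ c6 * (x0 + (i + 1)) ^ f := Nat.mul_le_mul_left _ e1
        have e3 : i * (c6 * (x0 + i) ^ f) ≤ i * (c6 * (x0 + (i + 1)) ^ f) :=
          Nat.mul_le_mul_left _ e2
        have e4 : (i + 1) * (c6 * (x0 + (i + 1)) ^ f) =
            i * (c6 * (x0 + (i + 1)) ^ f) + c6 * (x0 + (i + 1)) ^ f := by ring
        omega
    intro K
    rw [hd]
    by_cases hK : K ≤ 8 * x0 ^ (f + (q + 1))
    · calc (bc A K) ^ (f + (q + 1)) ≤ K ^ (f + (q + 1)) := Nat.pow_le_pow_left (bc_le A K) _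
        _ = K ^ (q + 1) * K ^ f := by ring
        _ = K ^ (q + 1) * K ^ f * 1 := (mul_one _).symm
        _ ≤ (8 * x0 ^ (f + (q + 1))) ^ (q + 1) * K ^ f * 1 :=
            Nat.mul_le_mul_right _ (Nat.mul_le_mul_right _ (Nat.pow_le_pow_left hK _))
        _ ≤ (8 * x0 ^ (f + (q + 1))) ^ (q + 1) * K ^ (f + 1) := by
            rw [mul_one]
            rcases Nat.eq_zero_or_pos K with h0 | h0
            · rw [h0, zero_pow (by omega), Nat.mul_zero]
              exact Nat.zero_le _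
            · exact Nat.mul_le_mul_left _ (Nat.pow_le_pow_right h0 (by omega))
        _ ≤ _ := Nat.mul_le_mul_right _ (by
            have := Nat.zero_le (c7 ^ (f + (q + 1)))
            omega)
    · push Not at hK
      have hex : ∃ i, K ≤ 8 * (x0 + i) ^ (f + (q + 1)) := by
        refine ⟨K, ?_⟩
        have := hself2 (x0 + K)
        omega
      classical
      obtain ⟨m, hm, hmin⟩ : ∃ m, K ≤ 8 * (x0 + m) ^ (f + (q + 1)) ∧
          ∀ i < m, ¬ K ≤ 8 * (x0 + i) ^ (f + (q + 1)) :=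
        ⟨Nat.find hex, Nat.find_spec hex, fun i hi => Nat.find_min hex hi⟩
      have hm0 : m ≠ 0 := by
        rintro rfl
        rw [Nat.add_zero] at hm
        omega
      obtain ⟨i, rfl⟩ := Nat.exists_eq_succ_of_ne_zero hm0
      have hi : 8 * (x0 + i) ^ (f + (q + 1)) < K := not_le.1 (hmin i (Nat.lt_succ_self i))
      have e1 : bc A K ≤ c7 * (x0 + i) ^ (f + 1) := by
        refine (bc_mono A hm).trans ((hsum (i + 1)).trans ?_)
        have f1 : (x0 + (i + 1)) ^ f ≤ 2 ^ f * (x0 + i) ^ f := by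
          rw [← mul_pow]
          exact Nat.pow_le_pow_left (by omega) f
        have f2 : (i + 1) * (c6 * (x0 + (i + 1)) ^ f) ≤
            (2 * (x0 + i)) * (c6 * (2 ^ f * (x0 + i) ^ f)) :=
          Nat.mul_le_mul (by omega) (Nat.mul_le_mul_left _ f1)
        have f3 : (2 * (x0 + i)) * (c6 * (2 ^ f * (x0 + i) ^ f)) =
            c6 * 2 ^ (f + 1) * (x0 + i) ^ (f + 1) := r4 _ _ _
        have f4 : 1 ≤ (x0 + i) ^ (f + 1) := Nat.one_le_pow _ _ (hx1 i)
        have f5 : 8 * x0 ^ (f + (q + 1)) * 1 ≤ 8 * x0 ^ (f + (q + 1)) * (x0 + i) ^ (f + 1) :=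
          Nat.mul_le_mul_left _ f4
        have f6 : c7 * (x0 + i) ^ (f + 1) = 8 * x0 ^ (f + (q + 1)) * (x0 + i) ^ (f + 1) +
            c6 * 2 ^ (f + 1) * (x0 + i) ^ (f + 1) := by rw [hc7]; ring
        omega
      calc (bc A K) ^ (f + (q + 1)) ≤ (c7 * (x0 + i) ^ (f + 1)) ^ (f + (q + 1)) :=
            Nat.pow_le_pow_left e1 _
        _ = c7 ^ (f + (q + 1)) * ((x0 + i) ^ (f + (q + 1))) ^ (f + 1) := r5 _ _ _ _
        _ ≤ c7 ^ (f + (q + 1)) * K ^ (f + 1) :=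
            Nat.mul_le_mul_left _ (Nat.pow_le_pow_left (by omega) _)
        _ ≤ _ := Nat.mul_le_mul_right _ (by
            have := Nat.zero_le ((C4 * (cr + 1)) ^ (f + (q + 1)))
            omega)

/-- **Almost all scales.** -/
theorem good_exists (q f : ℕ) (hf : 1 ≤ f) : ∃ (A : Set ℕ) (c : ℕ), Good q f A c := by
  induction f, hf using Nat.le_induction with
  | base => exact good_base q
  | succ f hf ih =>
    obtain ⟨B, c, hB⟩ := ih
    exact good_succ hf hB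

end Pool.Agent.Helper667_AS
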