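import Pool.Agent.H125R2.ET.Main

/-!
# Wide blocks `S + m B`
-/

set_option autoImplicit false

namespace Pool.Agent.Helper667_AS

open Finset Pool.Agent.H125R2.ET

/-- `{s + m b : s ∈ S, b ∈ B}` -/
def wd (m : ℕ) (B S : Finset ℕ) : Finset ℕ := (B ×ˢ S).image (fun x => x.2 + m * x.1)

theorem mem_wd {m : ℕ} {B S : Finset ℕ} {n : ℕ} :
    n ∈ wd m B S ↔ ∃ b ∈ B, ∃ s ∈ S, s + m * b = n := by
  unfold wd
  rw [mem_image]
  constructor
  · rintro ⟨⟨b, s⟩, h, rfl⟩
    rw [mem_product] at h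
    exact ⟨b, h.1, s, h.2, rfl⟩
  · rintro ⟨b, hb, s, hs, rfl⟩
    exact ⟨(b, s), mem_product.2 ⟨hb, hs⟩, rfl⟩

/-- the random set `S + m B` -/
def wRFS (m : ℕ) (B : Finset ℕ) (X : RFS) : RFS where
  Ω := X.Ω
  ft := X.ft
  ne := X.ne
  S := fun ω => wd m B (X.S ω)

theorem wd_class {m d N : ℕ} {B S : Finset ℕ}
    (h : ∀ c, (S.filter (fun s => s % d = c)).card ≤ N) (c : ℕ) :
    ((wd m B S).filter (fun s => s % d = c)).card ≤ B.card * N := by
  classical
  have hsub : (wd m B S).filter (fun s => s % d = c) ⊆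
      B.biUnion (fun b => (S.filter (fun s => (s + m * b) % d = c)).image (fun s => s + m * b)) := by
    intro n hn
    rw [mem_filter, mem_wd] at hn
    obtain ⟨⟨b, hb, s, hs, rfl⟩, hn⟩ := hn
    rw [mem_biUnion]
    exact ⟨b, hb, mem_image.2 ⟨s, mem_filter.2 ⟨hs, hn⟩, rfl⟩⟩
  refine (card_le_card hsub).trans ((card_biUnion_le_card_mul _ _ N (fun b _ => ?_)))
  refine card_image_le.trans ?_
  rcases (S.filter (fun s => (s + m * b) % d = c)).eq_empty_or_nonempty with he | ⟨s0, hs0⟩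
  · rw [he]; simp
  · refine (card_le_card ?_).trans (h (s0 % d))
    intro s hs
    rw [mem_filter] at hs hs0 ⊢
    refine ⟨hs.1, ?_⟩
    have : s + m * b ≡ s0 + m * b [MOD d] := hs.2.trans hs0.2.symm
    exact Nat.ModEq.add_right_cancel' _ this

/-- the set of the `s < N` with `s + m b ∈ V` for some `b ∈ B` -/
def proj (m N : ℕ) (B V : Finset ℕ) : Finset ℕ :=
  (range N).filter (fun s => ∃ b ∈ B, s + m * b ∈ V)

theorem wd_hits {m N : ℕ} {B S V : Finset ℕ} (hS : ∀ s ∈ S, s < N) (hV : ClsLE m V 1) :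
    ((wd m B S) ∩ V).card ≤ (S ∩ proj m N B V).card := by
  classical
  have h1 : ∀ n ∈ (wd m B S) ∩ V, ∃ s, s ∈ S ∩ proj m N B V ∧ s % m = n % m := by
    intro n hn
    rw [mem_inter, mem_wd] at hn
    obtain ⟨⟨b, hb, s, hs, rfl⟩, hn⟩ := hn
    refine ⟨s, mem_inter.2 ⟨hs, ?_⟩, ?_⟩
    · unfold proj
      exact mem_filter.2 ⟨mem_range.2 (hS s hs), b, hb, hn⟩
    · rw [Nat.add_mul_mod_self_left]
  choose! f hf using h1
  refine card_le_card_of_injOn f (fun n hn => mem_coe.2 (hf n (mem_coe.1 hn)).1) ?_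
  intro n hn n' hn' hnn
  have e1 := (hf n (mem_coe.1 hn)).2
  have e2 := (hf n' (mem_coe.1 hn')).2
  have e3 : n % m = n' % m := by
    rw [← e1, ← e2]
    exact congrArg (· % m) hnn
  have h2 := hV (n % m)
  rw [card_le_one] at h2
  exact h2 n (mem_filter.2 ⟨(mem_inter.1 (mem_coe.1 hn)).2, rfl⟩) n'
    (mem_filter.2 ⟨(mem_inter.1 (mem_coe.1 hn')).2, e3.symm⟩)

theorem cls_proj {m P J g : ℕ} (hm : 0 < m) {B V : Finset ℕ} (hP : P ∣ m) (hV : ClsLE P V g) :
    ClsLE P (proj m (J * m) B V) ((J + 1) * g) := by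
  classical
  intro c
  have hsub : (proj m (J * m) B V).filter (fun v => v % P = c) ⊆
      (V.filter (fun v => v % P = c)).biUnion
        (fun n => (range (J * m)).filter (fun s => s % m = n % m)) := by
    intro s hs
    unfold proj at hs
    rw [mem_filter, mem_filter] at hs
    obtain ⟨⟨h1, b, hb, h2⟩, h3⟩ := hs
    rw [mem_biUnion]
    refine ⟨s + m * b, mem_filter.2 ⟨h2, ?_⟩, mem_filter.2 ⟨h1, ?_⟩⟩
    · obtain ⟨t, rfl⟩ := hP
      rw [mul_assoc, Nat.add_mul_mod_self_left]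
      exact h3
    · rw [Nat.add_mul_mod_self_left]
  refine (card_le_card hsub).trans ((card_biUnion_le_card_mul _ _ (J + 1) (fun n _ => ?_)).trans ?_)
  · refine (card_le_of_modEq (N := J * m) (M := m) ?_ ?_).trans ?_
    · intro v hv
      exact mem_range.1 (mem_filter.1 hv).1
    · intro v hv w hw
      rw [(mem_filter.1 hv).2, (mem_filter.1 hw).2]
    · rw [Nat.mul_div_cancel _ hm]
  · rw [mul_comm]
    exact Nat.mul_le_mul_left _ (hV c)

theorem mom_wRFS {m N : ℕ} {B V : Finset ℕ} {X : RFS} {lam : ℝ} (hlam : 0 ≤ lam)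
    (hS : ∀ ω, ∀ s ∈ X.S ω, s < N) (hV : ClsLE m V 1) :
    (wRFS m B X).mom lam V ≤ X.mom lam (proj m N B V) := by
  refine E_mono X (fun ω => ?_)
  refine Real.exp_le_exp.2 (mul_le_mul_of_nonneg_left ?_ hlam)
  exact_mod_cast wd_hits (hS ω) hV

/-- the hits of a wide block -/
theorem wd_refl {m J : ℕ} (hm : 0 < m) {B S Y : Finset ℕ} (hS : ∀ s ∈ S, m ≤ s ∧ s < J * m)
    (hY : ∀ y ∈ Y, y < m) {T : ℝ} (hT : ∀ n, ((S ∩ refl n Y).card : ℝ) ≤ T) (n : ℕ) :
    (((wd m B S) ∩ refl n Y).card : ℝ) ≤ (J + 2 : ℕ) * T := by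
  classical
  have hT0 : 0 ≤ T := le_trans (Nat.cast_nonneg _) (hT 0)
  set I : Finset ℕ := (range (n + 1)).filter (fun b => m * b ≤ n ∧ n < (J + 1) * m + m * b) with hI
  have hIc : I.card ≤ J + 2 := by
    have hsub : I ⊆ Finset.Icc (n / m - (J + 1)) (n / m) := by
      intro b hb
      rw [hI, mem_filter] at hb
      rw [mem_Icc]
      have h1 : b ≤ n / m := (Nat.le_div_iff_mul_le hm).2 (by rw [mul_comm]; exact hb.2.1)
      have h2 : n / m < J + 1 + b := (Nat.div_lt_iff_lt_mul hm).2 (by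
        have := hb.2.2
        rw [add_mul, mul_comm b m]
        exact this)
      omega
    refine (card_le_card hsub).trans ?_
    rw [Nat.card_Icc]
    omega
  have hsub : (wd m B S) ∩ refl n Y ⊆
      I.biUnion (fun b => (S ∩ refl (n - m * b) Y).image (fun s => s + m * b)) := by
    intro w hw
    rw [mem_inter, mem_wd, mem_refl] at hw
    obtain ⟨⟨b, hb, s, hs, rfl⟩, h1, h2⟩ := hw
    have h3 := hS s hs
    have h4 := hY _ h2
    have hbn : b ≤ m * b := Nat.le_mul_of_pos_left b hm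
    rw [mem_biUnion]
    refine ⟨b, ?_, mem_image.2 ⟨s, mem_inter.2 ⟨hs, mem_refl.2 ⟨by omega, ?_⟩⟩, rfl⟩⟩
    · rw [hI, mem_filter, mem_range, add_mul, one_mul]
      exact ⟨by omega, by omega, by omega⟩
    · have : n - m * b - s = n - (s + m * b) := by omega
      rw [this]
      exact h2
  calc (((wd m B S) ∩ refl n Y).card : ℝ)
      ≤ ((∑ b ∈ I, ((S ∩ refl (n - m * b) Y).image (fun s => s + m * b)).card : ℕ) : ℝ) := by
        exact_mod_cast (card_le_card hsub).trans card_biUnion_le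
    _ ≤ ∑ b ∈ I, ((S ∩ refl (n - m * b) Y).card : ℝ) := by
        rw [Nat.cast_sum]
        exact Finset.sum_le_sum (fun b _ => by exact_mod_cast card_image_le)
    _ ≤ ∑ _b ∈ I, T := Finset.sum_le_sum (fun b _ => hT _)
    _ = I.card * T := by rw [Finset.sum_const, nsmul_eq_mul]
    _ ≤ (J + 2 : ℕ) * T := mul_le_mul_of_nonneg_right (by exact_mod_cast hIc) hT0

/-- the representations by a wide block -/
theorem wd_rep {m J R ρ : ℕ} (hm : 0 < m) {B S : Finset ℕ} (hS : ∀ s ∈ S, s < J * m)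
    (hR : ∀ n, repF S S n ≤ R) (hρ : ∀ n, repF B B n ≤ ρ) (n : ℕ) :
    repF (wd m B S) (wd m B S) n ≤ (2 * J + 1) * (ρ * R) := by
  classical
  set I : Finset ℕ := (range (n + 1)).filter (fun b => m * b ≤ n ∧ n < 2 * J * m + m * b) with hI
  have hIc : I.card ≤ 2 * J + 1 := by
    have hsub : I ⊆ Finset.Icc (n / m - 2 * J) (n / m) := by
      intro b hb
      rw [hI, mem_filter] at hb
      rw [mem_Icc]
      have h1 : b ≤ n / m := (Nat.le_div_iff_mul_le hm).2 (by rw [mul_comm]; exact hb.2.1)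
      have h2 : n / m < 2 * J + b := (Nat.div_lt_iff_lt_mul hm).2 (by
        have := hb.2.2
        rw [add_mul, mul_comm b m]
        exact this)
      omega
    refine (card_le_card hsub).trans ?_
    rw [Nat.card_Icc]
    omega
  unfold repF
  have hsub : ((wd m B S) ×ˢ (wd m B S)).filter (fun x => x.1 + x.2 = n) ⊆
      I.biUnion (fun β => (((B ×ˢ B).filter (fun x => x.1 + x.2 = β)) ×ˢ
        ((S ×ˢ S).filter (fun x => x.1 + x.2 = n - m * β))).image
        (fun z => (z.2.1 + m * z.1.1, z.2.2 + m * z.1.2))) := by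
    rintro ⟨w, w'⟩ h
    rw [mem_filter, mem_product] at h
    obtain ⟨⟨h1, h2⟩, h3⟩ := h
    simp only at h1 h2 h3
    obtain ⟨b, hb, s, hs, rfl⟩ := mem_wd.1 h1
    obtain ⟨b', hb', s', hs', rfl⟩ := mem_wd.1 h2
    have e1 : m * (b + b') = m * b + m * b' := mul_add _ _ _
    have e2 := hS s hs
    have e3 := hS s' hs'
    have e4 : b + b' ≤ m * (b + b') := Nat.le_mul_of_pos_left _ hm
    have e5 : 2 * J * m = 2 * (J * m) := mul_assoc _ _ _
    rw [mem_biUnion]
    refine ⟨b + b', ?_, ?_⟩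
    · rw [hI, mem_filter, mem_range]
      exact ⟨by omega, by omega, by omega⟩
    · rw [mem_image]
      refine ⟨((b, b'), (s, s')), ?_, rfl⟩
      rw [mem_product, mem_filter, mem_filter, mem_product, mem_product]
      exact ⟨⟨⟨hb, hb'⟩, rfl⟩, ⟨hs, hs'⟩, by simp only; omega⟩
  refine (card_le_card hsub).trans ((card_biUnion_le_card_mul _ _ (ρ * R) (fun β _ => ?_)).trans ?_)
  · refine card_image_le.trans ?_
    rw [card_product]
    exact Nat.mul_le_mul (hρ β) (hR _)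
  · exact Nat.mul_le_mul_right _ hIc

end Pool.Agent.Helper667_AS
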